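import Pool.Agent.X219.TC.Rigid

/-!
Generic pairs.
-/

set_option autoImplicit false

open Set Filter Topology Function

namespace Pool.Agent.X219.TC

/-- the open sets -/
def Wn (c : ℝ) (N : ℕ) : Set ((ℕ → ℝ) × (ℕ → ℝ)) :=
  {p | ∃ k, N ≤ k ∧ |p.1 k| < 1 / ((N : ℝ) + 1) ∧ |p.2 k - c| < 1 / ((N : ℝ) + 1)}

theorem open_Wn (c : ℝ) (N : ℕ) : IsOpen (Wn c N) := by
  have h : Wn c N = ⋃ k ∈ {k | N ≤ k}, ({p | |p.1 k| < 1 / ((N : ℝ) + 1)} ∩
      {p | |p.2 k - c| < 1 / ((N : ℝ) + 1)}) := by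
    ext p
    simp only [Wn, Set.mem_ofPred_eq, Set.mem_iUnion, Set.mem_inter_iff, exists_prop]
  rw [h]
  refine isOpen_biUnion fun k _ => IsOpen.inter ?_ ?_
  · exact isOpen_lt (((continuous_apply k).comp continuous_fst).abs) continuous_const
  · exact isOpen_lt ((((continuous_apply k).comp continuous_snd).sub continuous_const).abs)
      continuous_const

theorem tendsto_update (x : ℕ → ℝ) (c : ℝ) :
    Tendsto (fun k => Function.update x k c) atTop (𝓝 x) := by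
  rw [tendsto_pi_nhds]
  intro i
  refine tendsto_const_nhds.congr' ?_
  filter_upwards [eventually_gt_atTop i] with k hk
  rw [Function.update_of_ne hk.ne]

theorem dense_Wn (c : ℝ) (N : ℕ) : Dense (Wn c N) := by
  rintro ⟨x, y⟩
  have h := (tendsto_update x 0).prodMk_nhds (tendsto_update y c)
  refine mem_closure_of_tendsto h ?_
  filter_upwards [eventually_ge_atTop N] with k hk
  have hN : (0 : ℝ) < 1 / ((N : ℝ) + 1) := by positivity
  refine ⟨k, hk, ?_, ?_⟩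
  · simp only [Function.update_self, abs_zero]
    exact hN
  · simp only [Function.update_self, sub_self, abs_zero]
    exact hN

theorem lim_of_Wn {x y : ℕ → ℝ} {c : ℝ} (h : ∀ N, (x, y) ∈ Wn c N) {L : ℂ}
    (hL : Tendsto (fun n => e (amp (y n) - amp (x n))) atTop (𝓝 L)) :
    L = e (amp c - amp 0) := by
  choose k hk h1 h2 using h
  have hk' : Tendsto k atTop atTop := tendsto_atTop_mono hk tendsto_id
  have hz : Tendsto (fun N : ℕ => 1 / ((N : ℝ) + 1)) atTop (𝓝 0) :=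
    tendsto_one_div_add_atTop_nhds_zero_nat
  have e1 : Tendsto (fun N => x (k N)) atTop (𝓝 0) :=
    squeeze_zero_norm (fun N => (h1 N).le) hz
  have e2 : Tendsto (fun N => y (k N)) atTop (𝓝 c) := by
    have : Tendsto (fun N => y (k N) - c) atTop (𝓝 0) :=
      squeeze_zero_norm (fun N => (h2 N).le) hz
    have h3 := this.add_const c
    simpa using h3
  have e3 : Tendsto (fun N => e (amp (y (k N)) - amp (x (k N)))) atTop (𝓝 (e (amp c - amp 0))) :=
    (continuous_e.tendsto _).comp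
      (((continuous_amp.tendsto _).comp e2).sub ((continuous_amp.tendsto _).comp e1))
  exact tendsto_nhds_unique (hL.comp hk') e3

theorem generic_pair {C : Set (ℕ → ℝ)} (hC : C ∈ residual (ℕ → ℝ)) :
    ∃ x ∈ C, ∃ y ∈ C,
      ¬ ∃ L : ℂ, Tendsto (fun n => e (amp (y n) - amp (x n))) atTop (𝓝 L) := by
  have h1 : (Prod.fst : (ℕ → ℝ) × (ℕ → ℝ) → (ℕ → ℝ)) ⁻¹' C ∈ residual ((ℕ → ℝ) × (ℕ → ℝ)) :=
    tendsto_residual_of_isOpenMap continuous_fst isOpenMap_fst hC
  have h2 : (Prod.snd : (ℕ → ℝ) × (ℕ → ℝ) → (ℕ → ℝ)) ⁻¹' C ∈ residual ((ℕ → ℝ) × (ℕ → ℝ)) :=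
    tendsto_residual_of_isOpenMap continuous_snd isOpenMap_snd hC
  have h3 : ∀ c, (⋂ N, Wn c N) ∈ residual ((ℕ → ℝ) × (ℕ → ℝ)) := fun c =>
    countable_iInter_mem.2 fun N => residual_of_dense_open (open_Wn c N) (dense_Wn c N)
  have h4 := dense_of_mem_residual
    (inter_mem (inter_mem h1 h2) (inter_mem (h3 0) (h3 (Real.pi / 2))))
  obtain ⟨p, ⟨⟨hp1, hp2⟩, hp3, hp4⟩⟩ := h4.nonempty
  refine ⟨p.1, hp1, p.2, hp2, ?_⟩
  rintro ⟨L, hL⟩
  have e1 := lim_of_Wn (fun N => Set.mem_iInter.1 hp3 N) hL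
  have e2 := lim_of_Wn (fun N => Set.mem_iInter.1 hp4 N) hL
  rw [sub_self, e_zero] at e1
  rw [e1] at e2
  have e3 : amp (Real.pi / 2) - amp 0 = 1 / 2 := by
    unfold amp
    rw [Real.sin_pi_div_two, Real.sin_zero]
    norm_num
  rw [e3] at e2
  obtain ⟨n, hn⟩ := e_eq_one e2.symm
  have h5 : (2 * n : ℤ) = 1 := by
    have : (2 * (n : ℝ)) = 1 := by rw [← hn]; norm_num
    exact_mod_cast this
  omega

end Pool.Agent.X219.TC
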