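import Pool.Agent.X219.TC.Dyn

/-!
Conjugacies between the maps `F s` and `F t`.
-/

set_option autoImplicit false
set_option linter.unusedSectionVars false

open Set Filter Topology Function
open scoped ContDiff Manifold

namespace Pool.Agent.X219.TC

variable {Z : Type} [NormedAddCommGroup Z] [NormedSpace ℝ Z] [FiniteDimensional ℝ Z] {D : Data Z}
  {s t : ℕ → ℝ}

/-- a conjugacy on the region -/
structure Cj (D : Data Z) (s t : ℕ → ℝ) where
  /-- the map -/
  H : ℂ × Z → ℂ × Z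
  /-- its inverse -/
  H' : ℂ × Z → ℂ × Z
  mem : ∀ y ∈ Rg Z, H y ∈ Rg Z
  mem' : ∀ y ∈ Rg Z, H' y ∈ Rg Z
  left : ∀ y ∈ Rg Z, H' (H y) = y
  right : ∀ y ∈ Rg Z, H (H' y) = y
  cont : ContinuousOn H (Rg Z)
  cont' : ContinuousOn H' (Rg Z)
  comm : ∀ y ∈ Rg Z, H (Fs D s y) = Fs D t (H y)

theorem dense_inv {X : Type*} [TopologicalSpace X] [T2Space X] {f : ℝ → X} (hf : Continuous f)
    (h1 : ∀ x, f (x + 1) = f x) (h2 : ∀ x, f (x + Real.sqrt 2) = f x) (x : ℝ) : f x = f 0 := by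
  have hd : Dense (AddSubgroup.closure {Real.sqrt 2, 1} : Set ℝ) := by
    rw [dense_addSubgroupClosure_pair_iff, div_one]
    exact irrational_sqrt_two
  have h3 : ∀ g ∈ AddSubgroup.closure {Real.sqrt 2, (1 : ℝ)}, ∀ x, f (x + g) = f x := by
    intro g hg
    induction hg using AddSubgroup.closure_induction with
    | mem y hy =>
      rcases hy with rfl | rfl
      · exact h2
      · exact h1
    | zero => intro x; rw [add_zero]
    | add a b _ _ ha hb => intro x; rw [← add_assoc, hb, ha]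
    | neg a _ ha =>
      intro x
      have := ha (x + -a)
      rw [neg_add_cancel_right] at this
      exact this.symm
  have h4 : IsClosed {x | f x = f 0} := isClosed_eq hf continuous_const
  have h5 : (AddSubgroup.closure {Real.sqrt 2, 1} : Set ℝ) ⊆ {x | f x = f 0} := by
    intro g hg
    have := h3 g hg 0
    rw [zero_add] at this
    exact this
  have h6 := closure_minimal h5 h4
  rw [hd.closure_eq] at h6
  exact h6 (mem_univ x)

theorem circ_inj {n : ℕ} {a b : ℂ} (h : circ Z n a = circ Z n b) : a = b := by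
  have h1 : ((Real.exp (-(hf n)) : ℝ) : ℂ) ≠ 0 := by exact_mod_cast (Real.exp_pos _).ne'
  exact mul_left_cancel₀ h1 (congrArg Prod.fst h)

theorem continuous_circ (n : ℕ) : Continuous (circ Z n) :=
  (continuous_const.mul continuous_id).prodMk continuous_const

theorem exists_seg (n : ℕ) : ∃ y : ℂ × Z, y ∈ Rg Z ∧ cw y ∈ seg Z n := by
  have h0 := hf_pos n
  have h1 := hf_le n
  have hc : cw (((Real.exp (-(3 / 4 * hf n)) : ℝ) : ℂ), (0 : Z)) = (-(3 / 4 * hf n), 0) := by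
    refine Prod.ext ?_ rfl
    show Real.log ‖((Real.exp (-(3 / 4 * hf n)) : ℝ) : ℂ)‖ = _
    rw [Complex.norm_real, Real.norm_eq_abs, abs_of_pos (Real.exp_pos _), Real.log_exp]
  refine ⟨(((Real.exp (-(3 / 4 * hf n)) : ℝ) : ℂ), (0 : Z)), ⟨?_, ?_⟩, ?_⟩
  · show ((Real.exp (-(3 / 4 * hf n)) : ℝ) : ℂ) ≠ 0
    exact_mod_cast (Real.exp_pos _).ne'
  · rw [hc, Data.norm_e, abs_lt]
    constructor <;> linarith
  · rw [hc]
    refine ⟨rfl, ?_, ?_⟩
    · show -(hf n) < -(3 / 4 * hf n)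
      linarith
    · show -(3 / 4 * hf n) < -(hf (n + 1))
      rw [hf_succ]
      linarith

namespace Cj

/-- the inverse conjugacy -/
def symm (C : Cj D s t) : Cj D t s where
  H := C.H'
  H' := C.H
  mem := C.mem'
  mem' := C.mem
  left := C.right
  right := C.left
  cont := C.cont'
  cont' := C.cont
  comm y hy := by
    have h1 := C.comm (C.H' y) (C.mem' y hy)
    rw [C.right y hy] at h1
    rw [← h1, C.left _ (Fs_mem D s (C.mem' y hy))]

theorem commG (C : Cj D s t) {y : ℂ × Z} (h : y ∈ Rg Z) : C.H (Gs D s y) = Gs D t (C.H y) := by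
  have h1 := C.comm (Gs D s y) (Gs_mem D s h)
  rw [Fs_Gs] at h1
  rw [h1, Gs_Fs]

theorem it (C : Cj D s t) {y : ℂ × Z} (h : y ∈ Rg Z) (k : ℕ) :
    C.H ((Fs D s)^[k] y) = (Fs D t)^[k] (C.H y) := by
  induction k with
  | zero => rfl
  | succ k ih => rw [iterate_succ_apply', iterate_succ_apply', C.comm _ (Fs_it D s h k).1, ih]

theorem it' (C : Cj D s t) {y : ℂ × Z} (h : y ∈ Rg Z) (k : ℕ) :
    C.H ((Gs D s)^[k] y) = (Gs D t)^[k] (C.H y) := by
  induction k with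
  | zero => rfl
  | succ k ih => rw [iterate_succ_apply', iterate_succ_apply', C.commG (Gs_it D s h k).1, ih]

theorem ca (C : Cj D s t) {y : ℂ × Z} (h : y ∈ Rg Z) : ContinuousAt C.H y :=
  C.cont.continuousAt (isOpen_Rg.mem_nhds h)

theorem rest (C : Cj D s t) {y : ℂ × Z} (h : y ∈ Rg Z) (hv : D.v (cw y) = 0) :
    D.v (cw (C.H y)) = 0 := by
  apply rec_rest D t (C.mem y h)
  have h1 := (C.ca h).tendsto.comp (rest_rec D s h hv)
  refine h1.congr fun k => ?_
  exact C.it h k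

theorem rest' (C : Cj D s t) {y : ℂ × Z} (h : y ∈ Rg Z) (hv : D.v (cw y) ≠ 0) :
    D.v (cw (C.H y)) ≠ 0 := by
  intro hv'
  have := C.symm.rest (C.mem y h) hv'
  have h1 : C.symm.H (C.H y) = y := C.left y h
  rw [h1] at this
  exact hv this

theorem rest_circ (C : Cj D s t) (n : ℕ) {ζ : ℂ} (hζ : ‖ζ‖ = 1) :
    D.v (cw (C.H (circ Z n ζ))) = 0 :=
  C.rest (circ_mem n hζ) (by rw [cw_circ n hζ]; exact D.v_pt n)

theorem cont_path (C : Cj D s t) (n : ℕ) : Continuous fun x : ℝ => C.H (circ Z n (e x)) :=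
  C.cont.comp_continuous ((continuous_circ n).comp continuous_e) fun x => circ_mem n (norm_e1 x)

theorem cw_const (C : Cj D s t) (n : ℕ) {ζ : ℂ} (hζ : ‖ζ‖ = 1) :
    cw (C.H (circ Z n ζ)) = cw (C.H (circ Z n 1)) := by
  obtain ⟨x, rfl⟩ := exists_e hζ
  have hc : Continuous fun x : ℝ => cw (C.H (circ Z n (e x))) := by
    rw [continuous_iff_continuousAt]
    intro x
    have h1 : (C.H (circ Z n (e x))).1 ≠ 0 := (C.mem _ (circ_mem n (norm_e1 x))).1
    exact (continuousAt_cw h1).comp (f := fun x : ℝ => C.H (circ Z n (e x)))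
      (C.cont_path n).continuousAt
  have h := dense_inv hc (fun x => by rw [e_add, e_one, mul_one]) (fun x => by
    have h1 := circ_mem (Z := Z) n (norm_e1 x)
    have h2 : circ Z n (e (x + Real.sqrt 2)) = Fs D s (circ Z n (e x)) := by
      rw [Fs_circ D s n (norm_e1 x), e_add, lam]
    rw [h2, C.comm _ h1, cw_Fs D t (C.mem _ h1).1]
    exact G_fix D (C.rest_circ n (norm_e1 x))) x
  rwa [e_zero] at h

theorem step (C : Cj D s t) (n : ℕ) {y : ℂ × Z} (h : y ∈ Rg Z) (hn : cw y ∈ seg Z n) :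
    ∃ m, cw (C.H (circ Z n 1)) = pt Z m ∧ cw (C.H (circ Z (n + 1) 1)) = pt Z (m + 1) ∧
      cw (C.H y) ∈ seg Z m := by
  have h1 := C.mem _ h
  have r1 := C.rest_circ n (ζ := 1) (by simp)
  have r2 := C.rest_circ (n + 1) (ζ := 1) (by simp)
  have m1 := C.mem _ (circ_mem (Z := Z) n (ζ := 1) (by simp))
  have m2 := C.mem _ (circ_mem (Z := Z) (n + 1) (ζ := 1) (by simp))
  have hv : D.v (cw y) ≠ 0 := by
    intro hv
    have h2 := (rest_iff D h.2).1 hv
    obtain ⟨h3, h4, h5⟩ := hn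
    rcases h2 with h2 | ⟨m, h2⟩
    · rw [h2] at h5
      have := hf_pos (n + 1)
      have h6 : (0 : ℝ) < -(hf (n + 1)) := h5
      linarith
    · rw [h2] at h4 h5
      have h6 : -(hf n) < -(hf m) := h4
      have h7 : -(hf m) < -(hf (n + 1)) := h5
      rcases Nat.lt_or_ge n m with h8 | h8
      · have := hf_anti (Nat.succ_le_of_lt h8)
        rw [Nat.succ_eq_add_one] at this
        linarith
      · have := hf_anti h8
        linarith
  have hn1 : ∀ k, ‖ph D s y * e (amp (s k))‖ = 1 := by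
    intro k
    rw [norm_mul, norm_ph D s h.1, norm_e1, mul_one]
  refine between D (C.rest' h hv) ((rest_iff D m1.2).1 r1) ((rest_iff D m2.2).1 r2) ?_ ?_
  · have h2 := (continuousAt_cw (C.mem _ (circ_mem n (hn1 n))).1).tendsto.comp
      ((C.ca (circ_mem n (hn1 n))).tendsto.comp (bwd D s h hn))
    rw [C.cw_const n (hn1 n)] at h2
    refine h2.congr fun k => ?_
    show cw (C.H ((Gs D s)^[k] y)) = _
    rw [C.it' h, (Gs_it D t h1 k).2]
  · have h2 := (continuousAt_cw (C.mem _ (circ_mem (n + 1) (hn1 (n + 1)))).1).tendsto.comp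
      ((C.ca (circ_mem (n + 1) (hn1 (n + 1)))).tendsto.comp (fwd D s h hn))
    rw [C.cw_const (n + 1) (hn1 (n + 1))] at h2
    refine h2.congr fun k => ?_
    show cw (C.H ((Fs D s)^[k] y)) = _
    rw [C.it h, (Fs_it D t h1 k).2]

theorem kap (C : Cj D s t) : ∃ m₀, ∀ n, cw (C.H (circ Z n 1)) = pt Z (m₀ + n) := by
  obtain ⟨y, hy, hn⟩ := exists_seg (Z := Z) 0
  obtain ⟨m₀, h0, -⟩ := C.step 0 hy hn
  refine ⟨m₀, fun n => ?_⟩
  induction n with
  | zero => exact h0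
  | succ n ih =>
    obtain ⟨y, hy, hn⟩ := exists_seg (Z := Z) n
    obtain ⟨m, h1, h2, -⟩ := C.step n hy hn
    have h3 : m = m₀ + n := pt_inj (h1.symm.trans ih)
    rw [h2, h3]
    rfl

theorem kap0 (C : Cj D s t) (n : ℕ) {ζ : ℂ} (hζ : ‖ζ‖ = 1) : cw (C.H (circ Z n ζ)) = pt Z n := by
  obtain ⟨m₀, h0⟩ := C.kap
  obtain ⟨m₁, h1⟩ := C.symm.kap
  have hc0 := circ_mem (Z := Z) 0 (ζ := 1) (by simp)
  obtain ⟨ξ, hξ, h2⟩ := eq_circ (C.mem _ hc0).1 (h0 0)
  have h3 : C.symm.H (C.H (circ Z 0 1)) = circ Z 0 1 := C.left _ hc0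
  rw [h2] at h3
  have h4 := C.symm.cw_const (m₀ + 0) hξ
  rw [h3, h1, cw_circ 0 (by simp)] at h4
  have h5 := pt_inj h4
  have h6 : m₀ = 0 := by omega
  rw [C.cw_const n hζ, h0, h6, zero_add]

theorem eta (C : Cj D s t) (n : ℕ) : ∃ η : ℂ, ‖η‖ = 1 ∧
    ∀ ζ : ℂ, ‖ζ‖ = 1 → C.H (circ Z n ζ) = circ Z n (η * ζ) := by
  have key : ∀ ζ : ℂ, ‖ζ‖ = 1 → ∃ ξ : ℂ, ‖ξ‖ = 1 ∧ C.H (circ Z n ζ) = circ Z n ξ := fun ζ hζ =>
    eq_circ (C.mem _ (circ_mem n hζ)).1 (C.kap0 n hζ)
  obtain ⟨η, hη, h1⟩ := key 1 (by simp)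
  refine ⟨η, hη, fun ζ hζ => ?_⟩
  obtain ⟨x, rfl⟩ := exists_e hζ
  have hc : Continuous fun x : ℝ => (C.H (circ Z n (e x))).1 / e x :=
    (continuous_fst.comp (C.cont_path n)).div continuous_e e_ne
  have h := dense_inv hc (fun x => by rw [e_add, e_one, mul_one]) (fun x => by
    have h1 := circ_mem (Z := Z) n (norm_e1 x)
    have h2 : circ Z n (e (x + Real.sqrt 2)) = Fs D s (circ Z n (e x)) := by
      rw [Fs_circ D s n (norm_e1 x), e_add, lam]
    obtain ⟨ξ, hξ, h3⟩ := key _ (norm_e1 x)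
    rw [h2, C.comm _ h1, h3, Fs_circ D t n hξ, e_add]
    show _ * (ξ * lam) / (e x * lam) = _ * ξ / e x
    have := lam_ne
    have := e_ne x
    field_simp) x
  obtain ⟨ξ, hξ, h3⟩ := key _ (norm_e1 x)
  simp only [e_zero, div_one] at h
  rw [h3, h1] at h
  rw [h3]
  have h4 : ((Real.exp (-(hf n)) : ℝ) : ℂ) ≠ 0 := by exact_mod_cast (Real.exp_pos _).ne'
  have h5 : ((Real.exp (-(hf n)) : ℝ) : ℂ) * ξ / e x = ((Real.exp (-(hf n)) : ℝ) : ℂ) * η := h
  rw [div_eq_iff (e_ne x), mul_assoc] at h5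
  rw [mul_left_cancel₀ h4 h5]

theorem rel (C : Cj D s t) {η : ℕ → ℂ} (hη : ∀ n, ‖η n‖ = 1 ∧
    ∀ ζ : ℂ, ‖ζ‖ = 1 → C.H (circ Z n ζ) = circ Z n (η n * ζ)) (n : ℕ) :
    η n * e (amp (s n)) * e (-amp (t n)) =
      η (n + 1) * e (amp (s (n + 1))) * e (-amp (t (n + 1))) := by
  obtain ⟨y, hy, hn⟩ := exists_seg (Z := Z) n
  obtain ⟨m, h1, -, h2⟩ := C.step n hy hn
  have h3 : n = m := by
    have := C.kap0 n (ζ := 1) (by simp)
    exact pt_inj (this.symm.trans h1)
  subst h3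
  have hn1 : ∀ k, ‖ph D s y * e (amp (s k))‖ = 1 := by
    intro k
    rw [norm_mul, norm_ph D s hy.1, norm_e1, mul_one]
  have hp : ph D s y ≠ 0 := by
    intro h
    have := norm_ph D s hy.1
    rw [h] at this
    simp at this
  have b1 : Tendsto (fun k => (Gs D t)^[k] (C.H y)) Ul
      (𝓝 (circ Z n (η n * (ph D s y * e (amp (s n)))))) := by
    rw [← (hη n).2 _ (hn1 n)]
    have := (C.ca (circ_mem n (hn1 n))).tendsto.comp (bwd D s hy hn)
    exact this.congr fun k => C.it' hy k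
  have b2 : Tendsto (fun k => (Fs D t)^[k] (C.H y)) Ul
      (𝓝 (circ Z (n + 1) (η (n + 1) * (ph D s y * e (amp (s (n + 1))))))) := by
    rw [← (hη (n + 1)).2 _ (hn1 (n + 1))]
    have := (C.ca (circ_mem (n + 1) (hn1 (n + 1)))).tendsto.comp (fwd D s hy hn)
    exact this.congr fun k => C.it hy k
  have e1 := circ_inj (tendsto_nhds_unique b1 (bwd D t (C.mem _ hy) h2))
  have e2 := circ_inj (tendsto_nhds_unique b2 (fwd D t (C.mem _ hy) h2))
  apply mul_left_cancel₀ hp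
  calc ph D s y * (η n * e (amp (s n)) * e (-amp (t n)))
      = η n * (ph D s y * e (amp (s n))) * e (-amp (t n)) := by ring
    _ = ph D t (C.H y) * (e (-amp (t n)) * e (amp (t n))) := by rw [e1]; ring
    _ = ph D t (C.H y) * (e (-amp (t (n + 1))) * e (amp (t (n + 1)))) := by rw [e_neg, e_neg]
    _ = η (n + 1) * (ph D s y * e (amp (s (n + 1)))) * e (-amp (t (n + 1))) := by rw [e2]; ring
    _ = _ := by ring

theorem conv (C : Cj D s t) :
    ∃ L : ℂ, Tendsto (fun n => e (amp (t n) - amp (s n))) atTop (𝓝 L) := by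
  choose η hη using C.eta
  set c₀ := η 0 * e (amp (s 0)) * e (-amp (t 0)) with hc₀
  have h1 : ∀ n, η n * e (amp (s n)) * e (-amp (t n)) = c₀ := by
    intro n
    induction n with
    | zero => rfl
    | succ n ih => rw [← C.rel hη n, ih]
  have hη0 : ∀ n, η n ≠ 0 := by
    intro n h
    have := (hη n).1
    rw [h] at this
    simp at this
  have hc : c₀ ≠ 0 := mul_ne_zero (mul_ne_zero (hη0 0) (e_ne _)) (e_ne _)
  have h2 : ∀ n, e (amp (t n) - amp (s n)) = η n / c₀ := by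
    intro n
    rw [← h1 n, sub_eq_add_neg, e_add]
    have a1 := e_neg (amp (s n))
    have a2 := e_neg (amp (t n))
    have a3 := hη0 n
    have a4 := e_ne (amp (s n))
    have a5 := e_ne (-amp (t n))
    rw [eq_div_iff (mul_ne_zero (mul_ne_zero a3 a4) a5)]
    calc e (amp (t n)) * e (-amp (s n)) * (η n * e (amp (s n)) * e (-amp (t n)))
        = η n * (e (-amp (s n)) * e (amp (s n))) * (e (-amp (t n)) * e (amp (t n))) := by ring
      _ = η n := by rw [a1, a2]; ring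
  have hmem : ((1 : ℂ), (0 : Z)) ∈ Rg Z := by
    constructor
    · exact one_ne_zero
    · have : cw ((1 : ℂ), (0 : Z)) = 0 := by
        refine Prod.ext ?_ rfl
        show Real.log ‖(1 : ℂ)‖ = 0
        simp
      rw [this, norm_zero]
      norm_num
  have h3 : Tendsto (fun n => circ Z n 1) atTop (𝓝 ((1 : ℂ), (0 : Z))) := by
    have h4 : Tendsto (fun n => ((Real.exp (-(hf n)) : ℝ) : ℂ) * 1) atTop (𝓝 1) := by
      have h5 : Tendsto (fun n => Real.exp (-(hf n))) atTop (𝓝 (Real.exp (-0))) :=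
        (Real.continuous_exp.tendsto _).comp (Data.tendsto_hf.neg)
      have h6 : Tendsto (fun n => ((Real.exp (-(hf n)) : ℝ) : ℂ)) atTop
          (𝓝 ((Real.exp (-0) : ℝ) : ℂ)) := (Complex.continuous_ofReal.tendsto _).comp h5
      have h7 : ((Real.exp (-0) : ℝ) : ℂ) = 1 := by rw [neg_zero, Real.exp_zero]; norm_num
      rw [h7] at h6
      simp only [mul_one]
      exact h6
    exact h4.prodMk_nhds tendsto_const_nhds
  have h4 : Tendsto (fun n => (C.H (circ Z n 1)).1) atTop (𝓝 (C.H ((1 : ℂ), (0 : Z))).1) :=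
    (continuous_fst.tendsto _).comp ((C.ca hmem).tendsto.comp h3)
  have h5 : Tendsto (fun n => ((Real.exp (hf n) : ℝ) : ℂ)) atTop (𝓝 1) := by
    have h5 : Tendsto (fun n => Real.exp (hf n)) atTop (𝓝 (Real.exp 0)) :=
      (Real.continuous_exp.tendsto _).comp Data.tendsto_hf
    have h6 : Tendsto (fun n => ((Real.exp (hf n) : ℝ) : ℂ)) atTop
        (𝓝 ((Real.exp 0 : ℝ) : ℂ)) := (Complex.continuous_ofReal.tendsto _).comp h5
    have h7 : ((Real.exp 0 : ℝ) : ℂ) = 1 := by rw [Real.exp_zero]; norm_num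
    rwa [h7] at h6
  have h6 : ∀ n, η n = ((Real.exp (hf n) : ℝ) : ℂ) * (C.H (circ Z n 1)).1 := by
    intro n
    rw [(hη n).2 1 (by simp)]
    show η n = ((Real.exp (hf n) : ℝ) : ℂ) * (((Real.exp (-(hf n)) : ℝ) : ℂ) * (η n * 1))
    rw [← mul_assoc, ← Complex.ofReal_mul, ← Real.exp_add, add_neg_cancel, Real.exp_zero]
    simp
  refine ⟨1 * (C.H ((1 : ℂ), (0 : Z))).1 / c₀, ?_⟩
  simp only [h2]
  apply Tendsto.div_const
  rw [funext h6]
  exact h5.mul h4

end Cj

end Pool.Agent.X219.TC
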