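import Pool.Agent.X219.TC.Conj

/-!
Topological conjugacy of the diffeomorphisms.
-/

set_option autoImplicit false
set_option linter.unusedSectionVars false

open Set Filter Topology Function
open scoped ContDiff Manifold

namespace Pool.Agent.X219.TC

variable {m : ℕ} {M : Type} [TopologicalSpace M] [ChartedSpace (EuclideanSpace ℝ (Fin m)) M]
  [T2Space M] {Z : Type} [NormedAddCommGroup Z] [NormedSpace ℝ Z] [FiniteDimensional ℝ Z]
  (D : Data Z) (e : Emb m M (ℂ × Z))

theorem moved {s t : ℕ → ℝ} (h : M ≃ₜ M) (hh : ∀ x, h (fam D e s x) = fam D e t (h x))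
    {y : ℂ × Z} (hy : y ∈ Rg Z) : e.κ (h (e.ι y)) ∈ Rg Z ∧ e.ι (e.κ (h (e.ι y))) = h (e.ι y) := by
  have h1 : fam D e s (e.ι y) ≠ e.ι y := by
    rw [fam_apply, ext_apply e.op.injective]
    intro h2
    exact (fix_iff D s y).2 hy (e.op.injective h2)
  have h2 : fam D e t (h (e.ι y)) ≠ h (e.ι y) := by
    rw [← hh]
    exact fun h3 => h1 (h.injective h3)
  have h3 : h (e.ι y) ∈ range e.ι := by
    by_contra h3
    apply h2
    rw [fam_apply]
    exact ext_off _ h3
  obtain ⟨y', hy'⟩ := h3
  rw [← hy'] at h2 ⊢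
  rw [e.left]
  refine ⟨?_, rfl⟩
  rw [fam_apply, ext_apply e.op.injective] at h2
  exact (fix_iff D t y').1 fun h3 => h2 (congrArg e.ι h3)

theorem symm_comm {s t : ℕ → ℝ} (h : M ≃ₜ M) (hh : ∀ x, h (fam D e s x) = fam D e t (h x))
    (x : M) : h.symm (fam D e t x) = fam D e s (h.symm x) := by
  rw [Homeomorph.symm_apply_eq, hh, Homeomorph.apply_symm_apply]

/-- the conjugacy in the coordinates -/
noncomputable def cj {s t : ℕ → ℝ} (h : M ≃ₜ M)
    (hh : ∀ x, h (fam D e s x) = fam D e t (h x)) : Cj D s t where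
  H y := e.κ (h (e.ι y))
  H' y := e.κ (h.symm (e.ι y))
  mem y hy := (moved D e h hh hy).1
  mem' y hy := (moved D e h.symm (symm_comm D e h hh) hy).1
  left y hy := by
    rw [(moved D e h hh hy).2, Homeomorph.symm_apply_apply, e.left]
  right y hy := by
    rw [(moved D e h.symm (symm_comm D e h hh) hy).2, Homeomorph.apply_symm_apply, e.left]
  cont := by
    apply e.sm'.continuousOn.comp (h.continuous.comp e.op.continuous).continuousOn
    intro y hy
    exact ⟨_, (moved D e h hh hy).2⟩
  cont' := by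
    apply e.sm'.continuousOn.comp (h.symm.continuous.comp e.op.continuous).continuousOn
    intro y hy
    exact ⟨_, (moved D e h.symm (symm_comm D e h hh) hy).2⟩
  comm y hy := by
    have h1 : e.ι (Fs D s y) = fam D e s (e.ι y) := by
      rw [fam_apply, ext_apply e.op.injective]
    rw [h1, hh, ← (moved D e h hh hy).2, fam_apply, ext_apply e.op.injective, e.left, e.left]

theorem conj_imp {s t : ℕ → ℝ} (h : M ≃ₜ M) (hh : ∀ x, h (fam D e s x) = fam D e t (h x)) :
    ∃ L : ℂ, Tendsto (fun n => TC.e (amp (t n) - amp (s n))) atTop (𝓝 L) :=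
  (cj D e h hh).conv

end Pool.Agent.X219.TC
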