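import Pool.Agent.X219.TC.Rigid

/-!
Dynamics of the maps `F s`.
-/

set_option autoImplicit false
set_option linter.unusedSectionVars false

open Set Filter Topology Function
open scoped ContDiff Manifold

namespace Pool.Agent.X219.TC

variable {Z : Type} [NormedAddCommGroup Z] [NormedSpace ℝ Z] [FiniteDimensional ℝ Z] (D : Data Z)

theorem norm_line {x y : ℝ × Z} (h : x.2 = y.2) : ‖x - y‖ = |x.1 - y.1| := by
  have : x - y = ((x.1 - y.1 : ℝ), (0 : Z)) := Prod.ext rfl (by simp [h])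
  rw [this, Data.norm_e]

theorem G_mono {x y : ℝ × Z} (h : x.2 = y.2) (h1 : x.1 < y.1) : (D.G x).1 < (D.G y).1 := by
  rw [D.G_apply, D.G_apply]
  have h2 := D.v_lip x y
  rw [norm_line h, abs_sub_comm x.1, abs_of_pos (sub_pos.2 h1)] at h2
  have h3 := (abs_le.1 h2).2
  show x.1 + D.v x < y.1 + D.v y
  linarith

theorem G_symm_mono {x y : ℝ × Z} (h : x.2 = y.2) (h1 : x.1 < y.1) :
    (D.G.symm x).1 < (D.G.symm y).1 := by
  have e1 : (D.G.symm x).2 = (D.G.symm y).2 := by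
    rw [(D.G_symm x).2, (D.G_symm y).2, h]
  by_contra hc
  rw [not_lt] at hc
  rcases hc.lt_or_eq with hc | hc
  · have := G_mono D e1.symm hc
    rw [Homeomorph.apply_symm_apply, Homeomorph.apply_symm_apply] at this
    linarith
  · have : D.G.symm x = D.G.symm y := Prod.ext hc.symm e1
    have := D.G.symm.injective this
    rw [this] at h1
    exact lt_irrefl _ h1

/-- the open segment between two resting points -/
def seg (Z : Type) [NormedAddCommGroup Z] (n : ℕ) : Set (ℝ × Z) :=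
  {w | w.2 = 0 ∧ -(hf n) < w.1 ∧ w.1 < -(hf (n + 1))}

theorem G_fix {w : ℝ × Z} (h : D.v w = 0) : D.G w = w := by
  rw [D.G_apply, h, add_zero]

theorem G_symm_fix {w : ℝ × Z} (h : D.v w = 0) : D.G.symm w = w := by
  rw [Homeomorph.symm_apply_eq, G_fix D h]

theorem seg_G {n : ℕ} {w : ℝ × Z} (h : w ∈ seg Z n) : D.G w ∈ seg Z n := by
  obtain ⟨h1, h2, h3⟩ := h
  refine ⟨h1, ?_, ?_⟩
  · rw [D.G_apply]
    have := D.v_nonneg w
    show -(hf n) < w.1 + D.v w
    linarith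
  · have := G_mono D (x := w) (y := pt Z (n + 1)) h1 h3
    rwa [G_fix D (D.v_pt _)] at this

theorem seg_G_symm {n : ℕ} {w : ℝ × Z} (h : w ∈ seg Z n) : D.G.symm w ∈ seg Z n := by
  obtain ⟨h1, h2, h3⟩ := h
  refine ⟨by rw [(D.G_symm w).2, h1], ?_, ?_⟩
  · have := G_symm_mono D (x := pt Z n) (y := w) h1.symm h2
    rwa [G_symm_fix D (D.v_pt _)] at this
  · have h4 := (D.G_symm w).1
    have h5 := D.v_nonneg (D.G.symm w)
    linarith

theorem seg_it {n : ℕ} {w : ℝ × Z} (h : w ∈ seg Z n) (k : ℕ) : (D.G)^[k] w ∈ seg Z n := by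
  induction k with
  | zero => exact h
  | succ k ih => rw [iterate_succ_apply']; exact seg_G D ih

theorem seg_it' {n : ℕ} {w : ℝ × Z} (h : w ∈ seg Z n) (k : ℕ) : (D.G.symm)^[k] w ∈ seg Z n := by
  induction k with
  | zero => exact h
  | succ k ih => rw [iterate_succ_apply']; exact seg_G_symm D ih

theorem seg_norm {n : ℕ} {w : ℝ × Z} (h : w ∈ seg Z n) : ‖w‖ ≤ 1 := by
  obtain ⟨h1, h2, h3⟩ := h
  have : w = ((w.1 : ℝ), (0 : Z)) := Prod.ext rfl h1
  rw [this, Data.norm_e, abs_le]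
  have h4 := hf_le n
  have h5 := hf_pos (n + 1)
  constructor <;> linarith

theorem lim_fix {f : ℝ × Z → ℝ × Z} (hc : Continuous f) {w : ℝ × Z} {L : ℝ}
    (hz : ∀ k, (f^[k] w).2 = 0) (hL : Tendsto (fun k => (f^[k] w).1) atTop (𝓝 L)) :
    Tendsto (fun k => f^[k] w) atTop (𝓝 (L, 0)) ∧ f (L, 0) = (L, 0) := by
  have h1 : Tendsto (fun k => f^[k] w) atTop (𝓝 (L, 0)) := by
    have h2 : Tendsto (fun k => (f^[k] w).2) atTop (𝓝 0) := by
      simp only [hz]
      exact tendsto_const_nhds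
    exact hL.prodMk_nhds h2
  refine ⟨h1, ?_⟩
  have h2 : Tendsto (fun k => f^[k + 1] w) atTop (𝓝 (L, 0)) := h1.comp (tendsto_add_atTop_nat 1)
  have h3 : Tendsto (fun k => f^[k + 1] w) atTop (𝓝 (f (L, 0))) := by
    simp only [iterate_succ_apply']
    exact (hc.tendsto _).comp h1
  exact tendsto_nhds_unique h3 h2

theorem G_fix_iff {w : ℝ × Z} : D.G w = w ↔ D.v w = 0 := by
  constructor
  · intro h
    have := congrArg Prod.fst h
    rw [D.G_apply] at this
    have h1 : w.1 + D.v w = w.1 := this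
    linarith
  · exact G_fix D

theorem rest_between {n : ℕ} {L : ℝ} (h : D.v ((L, 0) : ℝ × Z) = 0) (h1 : -(hf n) ≤ L)
    (h2 : L ≤ -(hf (n + 1))) : L = -(hf n) ∨ L = -(hf (n + 1)) := by
  have p0 := hf_pos (n + 1)
  have p1 := hf_le n
  have p2 := hf_pos n
  have h3 : ‖((L, 0) : ℝ × Z)‖ < 11 / 8 := by
    rw [Data.norm_e, abs_lt]
    constructor <;> linarith
  rcases (rest_iff D h3).1 h with h4 | ⟨m, h4⟩
  · have : L = 0 := congrArg Prod.fst h4
    linarith
  · have h5 : L = -(hf m) := congrArg Prod.fst h4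
    rcases lt_trichotomy m n with h6 | h6 | h6
    · have := hf_lt h6
      linarith
    · left; rw [h5, h6]
    · right
      rcases Nat.eq_or_lt_of_le (Nat.succ_le_of_lt h6) with h7 | h7
      · rw [h5, ← h7]
      · have := hf_lt h7
        rw [Nat.succ_eq_add_one] at this
        linarith

theorem fwd_lim {n : ℕ} {w : ℝ × Z} (h : w ∈ seg Z n) :
    Tendsto (fun k => (D.G)^[k] w) atTop (𝓝 (pt Z (n + 1))) := by
  have hm : Monotone fun k => ((D.G)^[k] w).1 := by
    apply monotone_nat_of_le_succ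
    intro k
    rw [iterate_succ_apply', D.G_apply]
    have := D.v_nonneg ((D.G)^[k] w)
    show _ ≤ _ + _
    linarith
  have hb : BddAbove (range fun k => ((D.G)^[k] w).1) := by
    refine ⟨-(hf (n + 1)), ?_⟩
    rintro _ ⟨k, rfl⟩
    exact (seg_it D h k).2.2.le
  have hL := tendsto_atTop_ciSup hm hb
  set L := ⨆ k, ((D.G)^[k] w).1
  obtain ⟨h1, h2⟩ := lim_fix D.G.continuous (fun k => (seg_it D h k).1) hL
  have h3 : w.1 ≤ L := hm.ge_of_tendsto hL 0
  have h4 : L ≤ -(hf (n + 1)) := le_of_tendsto' hL (fun k => (seg_it D h k).2.2.le)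
  rw [G_fix_iff] at h2
  have h5 := h.2.1
  rcases rest_between D h2 (by linarith) h4 with h6 | h6
  · linarith
  · rw [h6] at h1
    exact h1

theorem bwd_lim {n : ℕ} {w : ℝ × Z} (h : w ∈ seg Z n) :
    Tendsto (fun k => (D.G.symm)^[k] w) atTop (𝓝 (pt Z n)) := by
  have hm : Antitone fun k => ((D.G.symm)^[k] w).1 := by
    apply antitone_nat_of_succ_le
    intro k
    rw [iterate_succ_apply']
    have h1 := (D.G_symm ((D.G.symm)^[k] w)).1
    have := D.v_nonneg (D.G.symm ((D.G.symm)^[k] w))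
    linarith
  have hb : BddBelow (range fun k => ((D.G.symm)^[k] w).1) := by
    refine ⟨-(hf n), ?_⟩
    rintro _ ⟨k, rfl⟩
    exact (seg_it' D h k).2.1.le
  have hL := tendsto_atTop_ciInf hm hb
  set L := ⨅ k, ((D.G.symm)^[k] w).1
  obtain ⟨h1, h2⟩ := lim_fix D.G.symm.continuous (fun k => (seg_it' D h k).1) hL
  have h3 : L ≤ w.1 := hm.le_of_tendsto hL 0
  have h4 : -(hf n) ≤ L := ge_of_tendsto' hL (fun k => (seg_it' D h k).2.1.le)
  rw [Homeomorph.symm_apply_eq, eq_comm, G_fix_iff] at h2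
  have h5 := h.2.2
  rcases rest_between D h2 h4 (by linarith) with h6 | h6
  · rw [h6] at h1
    exact h1
  · linarith

/-! ### phases -/

/-- the phase -/
noncomputable def ph (s : ℕ → ℝ) (y : ℂ × Z) : ℂ := y.1 / (‖y.1‖ : ℂ) * e (-D.Ψ s (cw y))

theorem norm_ph (s : ℕ → ℝ) {y : ℂ × Z} (h : y.1 ≠ 0) : ‖ph D s y‖ = 1 := by
  unfold ph
  rw [norm_mul, norm_e1, mul_one, norm_div, Complex.norm_real, norm_norm]
  exact div_self (norm_ne_zero_iff.2 h)

theorem ph_Fs (s : ℕ → ℝ) {y : ℂ × Z} (h : y.1 ≠ 0) (hw : ‖cw y‖ ≤ 5 / 4) :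
    ph D s (Fs D s y) = ph D s y * lam := by
  have h1 : (Fs D s y).1 = y.1 * ((Real.exp (D.v (cw y)) : ℝ) : ℂ) * e (D.A s (cw y)) := by
    rw [Fs_eq]
  have h2 : ‖(Fs D s y).1‖ = ‖y.1‖ * Real.exp (D.v (cw y)) := norm_cyl _ _ _
  have h3 : ((Real.exp (D.v (cw y)) : ℝ) : ℂ) ≠ 0 := by exact_mod_cast (Real.exp_pos _).ne'
  have h4 : ((‖y.1‖ : ℝ) : ℂ) ≠ 0 := by exact_mod_cast norm_ne_zero_iff.2 h
  have h5 : D.A s (cw y) = Real.sqrt 2 + D.Ψ s (D.G (cw y)) + -D.Ψ s (cw y) := by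
    rw [D.A_eq, D.a1 _ hw]
    ring
  unfold ph
  rw [h2, h1, cw_Fs D s h, h5, e_add, e_add, lam]
  push_cast
  have h6 := e_neg (D.Ψ s (D.G (cw y)))
  push_cast at h3
  field_simp
  calc _ = e (Real.sqrt 2) * e (-D.Ψ s (cw y)) *
        (e (-D.Ψ s (D.G (cw y))) * e (D.Ψ s (D.G (cw y)))) := by ring
    _ = _ := by rw [h6]; ring

theorem ph_it (s : ℕ → ℝ) {y : ℂ × Z} (h : y ∈ Rg Z) {n : ℕ} (hn : cw y ∈ seg Z n) (k : ℕ) :
    ph D s ((Fs D s)^[k] y) = ph D s y * lam ^ k := by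
  induction k with
  | zero => simp
  | succ k ih =>
    rw [iterate_succ_apply']
    obtain ⟨h1, h2⟩ := Fs_it D s h k
    rw [ph_Fs D s h1.1 (by
      rw [h2]
      have := seg_norm (seg_it D hn k)
      linarith), ih, pow_succ, mul_assoc]

theorem ph_it' (s : ℕ → ℝ) {y : ℂ × Z} (h : y ∈ Rg Z) {n : ℕ} (hn : cw y ∈ seg Z n) (k : ℕ) :
    ph D s ((Gs D s)^[k] y) = ph D s y * lam⁻¹ ^ k := by
  induction k with
  | zero => simp
  | succ k ih =>
    rw [iterate_succ_apply']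
    obtain ⟨h1, h2⟩ := Gs_it D s h k
    have h3 := Gs_mem D s h1
    have h4 : ‖cw (Gs D s ((Gs D s)^[k] y))‖ ≤ 5 / 4 := by
      rw [cw_Gs D s h1.1, h2]
      have := seg_norm (seg_G_symm D (seg_it' D hn k))
      linarith
    have h5 := ph_Fs D s h3.1 h4
    rw [Fs_Gs, ih] at h5
    have h6 := lam_ne
    rw [pow_succ, ← mul_assoc, h5]
    field_simp

theorem recon (s : ℕ → ℝ) {y : ℂ × Z} (h : y.1 ≠ 0) :
    y.1 = ((Real.exp (cw y).1 : ℝ) : ℂ) * (ph D s y * e (D.Ψ s (cw y))) := by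
  have h1 : Real.exp (cw y).1 = ‖y.1‖ := Real.exp_log (norm_pos_iff.2 h)
  have h2 := e_neg (D.Ψ s (cw y))
  have h4 : ((‖y.1‖ : ℝ) : ℂ) ≠ 0 := by exact_mod_cast norm_ne_zero_iff.2 h
  unfold ph
  rw [h1, mul_assoc, h2, mul_one]
  field_simp

theorem tendsto_circ (s : ℕ → ℝ) {n : ℕ} {p : ℂ} (y : ℕ → ℂ × Z) (h0 : ∀ k, (y k).1 ≠ 0)
    (h1 : Tendsto (fun k => cw (y k)) Ul (𝓝 (pt Z n)))
    (h2 : Tendsto (fun k => ph D s (y k)) Ul (𝓝 p)) :
    Tendsto y Ul (𝓝 (circ Z n (p * e (amp (s n))))) := by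
  have h3 : ∀ᶠ k in (Ul : Filter ℕ), D.Ψ s (cw (y k)) = amp (s n) := by
    have h4 : ∀ᶠ w in 𝓝 (pt Z n), ‖w - pt Z n‖ ≤ hf n / 16 := by
      have h5 : ContinuousAt (fun w => ‖w - pt Z n‖) (pt Z n) :=
        (continuous_id.sub continuous_const).norm.continuousAt
      have h6 : ‖pt Z n - pt Z n‖ < hf n / 16 := by
        rw [sub_self, norm_zero]
        have := hf_pos n
        positivity
      filter_upwards [h5.eventually (gt_mem_nhds h6)] with w hw
      exact hw.le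
    filter_upwards [h1.eventually h4] with k hk
    exact D.Ψ_near s hk
  have h4 : Tendsto (fun k => (cw (y k)).1) Ul (𝓝 (-(hf n))) :=
    (continuous_fst.tendsto (pt Z n)).comp h1
  have h5 : Tendsto (fun k => (cw (y k)).2) Ul (𝓝 0) :=
    (continuous_snd.tendsto (pt Z n)).comp h1
  have h6 : Tendsto (fun k => ((Real.exp (cw (y k)).1 : ℝ) : ℂ)) Ul
      (𝓝 ((Real.exp (-(hf n)) : ℝ) : ℂ)) :=
    (Complex.continuous_ofReal.tendsto _).comp ((Real.continuous_exp.tendsto _).comp h4)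
  have h7 : Tendsto (fun k => e (D.Ψ s (cw (y k)))) Ul (𝓝 (e (amp (s n)))) := by
    apply tendsto_const_nhds.congr'
    filter_upwards [h3] with k hk
    rw [hk]
  have h8 : Tendsto (fun k => (y k).1) Ul
      (𝓝 (((Real.exp (-(hf n)) : ℝ) : ℂ) * (p * e (amp (s n))))) := by
    have := h6.mul (h2.mul h7)
    refine this.congr fun k => ?_
    exact (recon D s (h0 k)).symm
  exact h8.prodMk_nhds h5

theorem fwd (s : ℕ → ℝ) {y : ℂ × Z} (h : y ∈ Rg Z) {n : ℕ} (hn : cw y ∈ seg Z n) :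
    Tendsto (fun k => (Fs D s)^[k] y) Ul
      (𝓝 (circ Z (n + 1) (ph D s y * e (amp (s (n + 1)))))) := by
  apply tendsto_circ D s
  · intro k
    exact (Fs_it D s h k).1.1
  · simp only [(Fs_it D s h _).2]
    exact (fwd_lim D hn).mono_left Ul_le
  · simp only [ph_it D s h hn]
    have := (tendsto_const_nhds (x := ph D s y)).mul Ul_lam
    rwa [mul_one] at this

theorem bwd (s : ℕ → ℝ) {y : ℂ × Z} (h : y ∈ Rg Z) {n : ℕ} (hn : cw y ∈ seg Z n) :
    Tendsto (fun k => (Gs D s)^[k] y) Ul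
      (𝓝 (circ Z n (ph D s y * e (amp (s n))))) := by
  apply tendsto_circ D s
  · intro k
    exact (Gs_it D s h k).1.1
  · simp only [(Gs_it D s h _).2]
    exact (bwd_lim D hn).mono_left Ul_le
  · simp only [ph_it' D s h hn]
    have := (tendsto_const_nhds (x := ph D s y)).mul Ul_lam_inv
    rwa [mul_one] at this

/-! ### recurrence -/

theorem rest_rec (s : ℕ → ℝ) {y : ℂ × Z} (h : y ∈ Rg Z) (hv : D.v (cw y) = 0) :
    Tendsto (fun k => (Fs D s)^[k] y) Ul (𝓝 y) := by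
  have hr := rest_norm ((rest_iff D h.2).1 hv)
  have h1 : ∀ k, (Fs D s)^[k] y = (y.1 * lam ^ k, y.2) := by
    intro k
    induction k with
    | zero => simp
    | succ k ih =>
      rw [iterate_succ_apply']
      obtain ⟨h2, h3⟩ := Fs_it D s h k
      have h4 : cw ((Fs D s)^[k] y) = cw y := by
        rw [h3]
        exact iterate_fixed (G_fix D hv) k
      rw [Fs_rest D s (by rw [h4]; linarith [hr.1]) (by rw [h4]; exact hv), ih, pow_succ]
      refine Prod.ext ?_ rfl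
      show y.1 * lam ^ k * lam = y.1 * (lam ^ k * lam)
      ring
  simp only [h1]
  have h2 := (tendsto_const_nhds (x := y.1)).mul Ul_lam
  rw [mul_one] at h2
  exact h2.prodMk_nhds tendsto_const_nhds

theorem it_mono (w : ℝ × Z) : Monotone fun k => ((D.G)^[k] w).1 := by
  apply monotone_nat_of_le_succ
  intro k
  rw [iterate_succ_apply', D.G_apply]
  have := D.v_nonneg ((D.G)^[k] w)
  show _ ≤ _ + _
  linarith

theorem it_anti (w : ℝ × Z) : Antitone fun k => ((D.G.symm)^[k] w).1 := by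
  apply antitone_nat_of_succ_le
  intro k
  rw [iterate_succ_apply']
  have h1 := (D.G_symm ((D.G.symm)^[k] w)).1
  have := D.v_nonneg (D.G.symm ((D.G.symm)^[k] w))
  linarith

theorem it_snd (w : ℝ × Z) (k : ℕ) : ((D.G)^[k] w).2 = w.2 := by
  induction k with
  | zero => rfl
  | succ k ih => rw [iterate_succ_apply', D.G_apply]; exact ih

theorem it_snd' (w : ℝ × Z) (k : ℕ) : ((D.G.symm)^[k] w).2 = w.2 := by
  induction k with
  | zero => rfl
  | succ k ih => rw [iterate_succ_apply', (D.G_symm _).2]; exact ih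

/-- a monotone sequence is below the limit along the ultrafilter -/
theorem le_lim {w w' : ℝ × Z} (h : Tendsto (fun k => (D.G)^[k] w) Ul (𝓝 w')) (k : ℕ) :
    ((D.G)^[k] w).1 ≤ w'.1 ∧ w'.2 = w.2 := by
  have h1 : Tendsto (fun k => ((D.G)^[k] w).1) Ul (𝓝 w'.1) := (continuous_fst.tendsto _).comp h
  have h2 : Tendsto (fun k => ((D.G)^[k] w).2) Ul (𝓝 w'.2) := (continuous_snd.tendsto _).comp h
  constructor
  · apply ge_of_tendsto h1
    filter_upwards [Ul_le (eventually_ge_atTop k)] with l hl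
    exact it_mono D w hl
  · simp only [it_snd] at h2
    exact (tendsto_nhds_unique h2 tendsto_const_nhds)

theorem lim_le {w w' : ℝ × Z} (h : Tendsto (fun k => (D.G.symm)^[k] w) Ul (𝓝 w')) (k : ℕ) :
    w'.1 ≤ ((D.G.symm)^[k] w).1 ∧ w'.2 = w.2 := by
  have h1 : Tendsto (fun k => ((D.G.symm)^[k] w).1) Ul (𝓝 w'.1) :=
    (continuous_fst.tendsto _).comp h
  have h2 : Tendsto (fun k => ((D.G.symm)^[k] w).2) Ul (𝓝 w'.2) :=
    (continuous_snd.tendsto _).comp h
  constructor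
  · apply le_of_tendsto h1
    filter_upwards [Ul_le (eventually_ge_atTop k)] with l hl
    exact it_anti D w hl
  · simp only [it_snd'] at h2
    exact (tendsto_nhds_unique h2 tendsto_const_nhds)

theorem rec_rest (s : ℕ → ℝ) {y : ℂ × Z} (h : y ∈ Rg Z)
    (ht : Tendsto (fun k => (Fs D s)^[k] y) Ul (𝓝 y)) : D.v (cw y) = 0 := by
  have h1 : Tendsto (fun k => (D.G)^[k] (cw y)) Ul (𝓝 (cw y)) := by
    have := (continuousAt_cw h.1).tendsto.comp ht
    refine this.congr fun k => ?_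
    exact (Fs_it D s h k).2
  have h2 := (le_lim D h1 1).1
  rw [iterate_one, D.G_apply] at h2
  have h3 := D.v_nonneg (cw y)
  have h4 : (cw y).1 + D.v (cw y) ≤ (cw y).1 := h2
  linarith

/-- the position of an orbit between two resting points -/
theorem between {w w₁ w₂ : ℝ × Z} (hw : D.v w ≠ 0)
    (h1 : w₁ = 0 ∨ ∃ n, w₁ = pt Z n) (h2 : w₂ = 0 ∨ ∃ n, w₂ = pt Z n)
    (t1 : Tendsto (fun k => (D.G.symm)^[k] w) Ul (𝓝 w₁))
    (t2 : Tendsto (fun k => (D.G)^[k] w) Ul (𝓝 w₂)) :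
    ∃ m, w₁ = pt Z m ∧ w₂ = pt Z (m + 1) ∧ w ∈ seg Z m := by
  have hz1 := (rest_norm h1).2
  have hz2 := (rest_norm h2).2
  have hz : w.2 = 0 := by rw [← (le_lim D t2 0).2, hz2]
  have hne : ∀ r : ℝ, D.v ((r, 0) : ℝ × Z) = 0 → w.1 ≠ r := by
    rintro r hr rfl
    have : w = ((w.1 : ℝ), (0 : Z)) := Prod.ext rfl hz
    rw [← this] at hr
    exact hw hr
  have hv1 : D.v w₁ = 0 := by
    rcases h1 with rfl | ⟨n, rfl⟩
    · exact D.v_zero
    · exact D.v_pt n
  have hv2 : D.v w₂ = 0 := by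
    rcases h2 with rfl | ⟨n, rfl⟩
    · exact D.v_zero
    · exact D.v_pt n
  have e1 : w₁ = ((w₁.1 : ℝ), (0 : Z)) := Prod.ext rfl hz1
  have e2 : w₂ = ((w₂.1 : ℝ), (0 : Z)) := Prod.ext rfl hz2
  have l1 : w₁.1 < w.1 := lt_of_le_of_ne (lim_le D t1 0).1
    (Ne.symm (hne _ (by rw [← e1]; exact hv1)))
  have l2 : w.1 < w₂.1 := lt_of_le_of_ne (le_lim D t2 0).1 (hne _ (by rw [← e2]; exact hv2))
  -- there are no resting points in between
  have key1 : ∀ r : ℝ, D.v ((r, 0) : ℝ × Z) = 0 → r < w.1 → r ≤ w₁.1 := by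
    intro r hr hrw
    have h3 : ∀ k, r < ((D.G.symm)^[k] w).1 := by
      intro k
      induction k with
      | zero => exact hrw
      | succ k ih =>
        rw [iterate_succ_apply']
        have := G_symm_mono D (x := (r, 0)) (y := (D.G.symm)^[k] w)
          (by rw [it_snd']; exact hz.symm) ih
        rwa [G_symm_fix D hr] at this
    have h4 : Tendsto (fun k => ((D.G.symm)^[k] w).1) Ul (𝓝 w₁.1) :=
      (continuous_fst.tendsto _).comp t1
    exact ge_of_tendsto' h4 (fun k => (h3 k).le)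
  have key2 : ∀ r : ℝ, D.v ((r, 0) : ℝ × Z) = 0 → w.1 < r → w₂.1 ≤ r := by
    intro r hr hrw
    have h3 : ∀ k, ((D.G)^[k] w).1 < r := by
      intro k
      induction k with
      | zero => exact hrw
      | succ k ih =>
        rw [iterate_succ_apply']
        have := G_mono D (x := (D.G)^[k] w) (y := (r, 0))
          (by rw [it_snd]; exact hz) ih
        rwa [G_fix D hr] at this
    have h4 : Tendsto (fun k => ((D.G)^[k] w).1) Ul (𝓝 w₂.1) :=
      (continuous_fst.tendsto _).comp t2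
    exact le_of_tendsto' h4 (fun k => (h3 k).le)
  -- identify `w₁`
  have hw2 : w₂.1 ≤ 0 := by
    rcases h2 with rfl | ⟨n, rfl⟩
    · exact le_refl _
    · have := hf_pos n
      show -(hf n) ≤ 0
      linarith
  rcases h1 with rfl | ⟨m, rfl⟩
  · exfalso
    have : (0 : ℝ × Z).1 = 0 := rfl
    rw [this] at l1
    linarith
  · refine ⟨m, rfl, ?_⟩
    have hp : (pt Z m).1 = -(hf m) := rfl
    rw [hp] at l1 key1
    have hr : D.v ((-(hf (m + 1)), 0) : ℝ × Z) = 0 := D.v_pt (m + 1)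
    have hlt : -(hf m) < -(hf (m + 1)) := by
      rw [hf_succ]
      have := hf_pos m
      linarith
    have hwr : w.1 < -(hf (m + 1)) := by
      rcases lt_trichotomy w.1 (-(hf (m + 1))) with h | h | h
      · exact h
      · exact (hne _ hr h).elim
      · have := key1 _ hr h
        linarith
    have h5 := key2 _ hr hwr
    refine ⟨?_, hz, l1, hwr⟩
    rw [e2] at hv2
    rcases rest_between D hv2 (by linarith) h5 with h6 | h6
    · linarith
    · rw [e2, h6]
      rfl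

end Pool.Agent.X219.TC
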