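import Pool.Agent.X219.TC.ConjM
import Pool.Agent.X219.TC.Pair
import Pool.Agent.X219.Sinf.Code

/-!
The nonclassification theorem.
-/

set_option autoImplicit false
set_option linter.unusedSectionVars false

open Set Filter Topology Function
open scoped ContDiff Manifold

namespace Pool.Agent.X219.TC

section cont

variable {Z : Type} [NormedAddCommGroup Z] [NormedSpace ℝ Z] [FiniteDimensional ℝ Z] (D : Data Z)

theorem continuous_Ψs (w : ℝ × Z) : Continuous fun s : ℕ → ℝ => D.Ψ s w := by
  unfold Data.Ψ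
  rcases (D.fin_β w).eq_empty_or_singleton with h | ⟨n, hn⟩
  · have h1 : ∀ n, D.β n w = 0 := by
      intro n
      by_contra hc
      have : n ∈ ({n | D.β n w ≠ 0} : Set ℕ) := hc
      rw [h] at this
      exact this
    simp only [h1, mul_zero, tsum_zero]
    exact continuous_const
  · have h1 : ∀ k, k ≠ n → D.β k w = 0 := by
      intro k hk
      by_contra hc
      have : k ∈ ({n | D.β n w ≠ 0} : Set ℕ) := hc
      rw [hn] at this
      exact hk this
    have h2 : ∀ s : ℕ → ℝ, ∑' k, amp (s k) * D.β k w = amp (s n) * D.β n w := by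
      intro s
      apply tsum_eq_single
      intro k hk
      rw [h1 k hk, mul_zero]
    simp only [h2]
    exact (continuous_amp.comp (continuous_apply n)).mul continuous_const

theorem continuous_As (w : ℝ × Z) : Continuous fun s : ℕ → ℝ => D.A s w := by
  simp only [D.A_eq]
  exact continuous_const.add ((continuous_Ψs D _).sub (continuous_Ψs D _))

theorem continuous_Fss (y : ℂ × Z) : Continuous fun s : ℕ → ℝ => Fs D s y := by
  simp only [Fs_eq]
  exact (continuous_const.mul (continuous_e.comp (continuous_As D _))).prodMk continuous_const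

variable {m : ℕ} {M : Type} [TopologicalSpace M] [ChartedSpace (EuclideanSpace ℝ (Fin m)) M]
  [T2Space M] (e : Emb m M (ℂ × Z))

theorem continuous_fams (x : M) : Continuous fun s : ℕ → ℝ => fam D e s x := by
  simp only [fam_apply]
  by_cases hx : x ∈ range e.ι
  · obtain ⟨y, rfl⟩ := hx
    simp only [ext_apply e.op.injective]
    exact e.op.continuous.comp (continuous_Fss D y)
  · simp only [ext_off _ hx]
    exact continuous_const

theorem measurable_fams [SecondCountableTopology M]
    (𝓑 : MeasurableSpace (Diffeomorph (𝓡 m) (𝓡 m) M M ∞))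
    (hB : @StandardBorelSpace (Diffeomorph (𝓡 m) (𝓡 m) M M ∞) 𝓑)
    (hev : ∀ x : M, @Measurable _ _ 𝓑 (borel M) fun f : Diffeomorph (𝓡 m) (𝓡 m) M M ∞ => f x) :
    @Measurable (ℕ → ℝ) _ _ 𝓑 (fam D e) := by
  borelize M
  obtain hM | hM := isEmpty_or_nonempty M
  · have : fam D e = fun _ => fam D e 0 := by
      funext s
      apply Diffeomorph.ext
      intro x
      exact (hM.false x).elim
    rw [this]
    exact measurable_const
  set d := TopologicalSpace.denseSeq M with hd
  have hdd : DenseRange d := TopologicalSpace.denseRange_denseSeq M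
  have h1 : Measurable fun (f : Diffeomorph (𝓡 m) (𝓡 m) M M ∞) (n : ℕ) => f (d n) :=
    measurable_pi_iff.2 fun n => hev (d n)
  have h2 : Injective fun (f : Diffeomorph (𝓡 m) (𝓡 m) M M ∞) (n : ℕ) => f (d n) := by
    intro f g hfg
    apply Diffeomorph.ext
    intro x
    have h3 : (f : M → M) = g := hdd.equalizer f.continuous g.continuous hfg
    exact congrFun h3 x
  have h3 := h1.measurableEmbedding h2
  rw [← h3.measurable_comp_iff]
  apply Continuous.measurable
  exact continuous_pi fun n => continuous_fams D e (d n)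

end cont

/-- the main theorem -/
theorem main {m : ℕ} (hm : 2 ≤ m) {M : Type} [TopologicalSpace M] [T2Space M]
    [SecondCountableTopology M] [Nonempty M] [ChartedSpace (EuclideanSpace ℝ (Fin m)) M]
    [IsManifold (𝓡 m) ∞ M]
    (𝓑 : MeasurableSpace (Diffeomorph (𝓡 m) (𝓡 m) M M ∞))
    (hB : @StandardBorelSpace (Diffeomorph (𝓡 m) (𝓡 m) M M ∞) 𝓑)
    (hev : ∀ x : M, @Measurable _ _ 𝓑 (borel M) fun f : Diffeomorph (𝓡 m) (𝓡 m) M M ∞ => f x)
    {Y : Type} [MeasurableSpace Y] [StandardBorelSpace Y] [MulAction (Equiv.Perm ℕ) Y]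
    (hact : @Measurable _ _ (Sinf.permBorel.prod inferInstance) _
      fun p : Equiv.Perm ℕ × Y => p.1 • p.2) :
    ¬ ∃ φ : Diffeomorph (𝓡 m) (𝓡 m) M M ∞ → Y, @Measurable _ _ 𝓑 _ φ ∧
      ∀ f g, (∃ h : M ≃ₜ M, ∀ x, h (f x) = g (h x)) ↔ ∃ σ : Equiv.Perm ℕ, σ • φ f = φ g := by
  rintro ⟨φ, hφ, hr⟩
  obtain ⟨D⟩ := exists_data (Z := EuclideanSpace ℝ (Fin (m - 2)))
  have hdim : Module.finrank ℝ (ℂ × EuclideanSpace ℝ (Fin (m - 2))) =
      Module.finrank ℝ (EuclideanSpace ℝ (Fin m)) := by
    rw [Module.finrank_prod, Complex.finrank_real_complex, finrank_euclideanSpace_fin,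
      finrank_euclideanSpace_fin]
    omega
  obtain ⟨e⟩ := exists_emb (M := M) (ContinuousLinearEquiv.ofFinrankEq hdim)
  obtain ⟨C, hC, hCC⟩ := Sinf.erg_action hact
    (ψ := fun s => φ (fam D e s)) (hφ.comp (measurable_fams D e 𝓑 hB hev))
    (fun x y hxy => (hr _ _).1 (conj_of_summable D e hxy))
  obtain ⟨x, hx, y, hy, hxy⟩ := generic_pair hC
  obtain ⟨h, hh⟩ := (hr _ _).2 (hCC x hx y hy)
  exact hxy (conj_imp D e h hh)

end Pool.Agent.X219.TC
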