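import Mathlib

/-!
Smooth bump functions on `ℝ × Z` with small derivatives.
-/

set_option autoImplicit false

open Set Filter Topology Function
open scoped ContDiff Manifold

namespace Pool.Agent.X219.TC

section general

variable {E : Type} [NormedAddCommGroup E] [NormedSpace ℝ E]

theorem bump [FiniteDimensional ℝ E] {s t : Set E} (hs : IsOpen s) (ht : IsClosed t) (h : t ⊆ s) :
    ∃ f : E → ℝ, ContDiff ℝ ∞ f ∧ (∀ x, 0 ≤ f x ∧ f x ≤ 1) ∧ (∀ x, f x ≠ 0 ↔ x ∈ s) ∧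
      ∀ x ∈ t, f x = 1 := by
  obtain ⟨f, h1, h2, h3, h4⟩ :=
    exists_contMDiff_support_eq_eq_one_iff (n := (⊤ : ℕ∞)) 𝓘(ℝ, E) hs ht h
  refine ⟨f, contMDiff_iff_contDiff.1 h1, fun x => ?_, fun x => ?_, fun x hx => (h4 x).1 hx⟩
  · exact h2 ⟨x, rfl⟩
  · rw [← h3]; rfl

theorem bdd [FiniteDimensional ℝ E] {f : E → ℝ} (hf : ContDiff ℝ ∞ f) {R : ℝ}
    (hR : ∀ x, f x ≠ 0 → ‖x‖ ≤ R) (k : ℕ) :
    ∃ C, 0 ≤ C ∧ ∀ x, ‖iteratedFDeriv ℝ k f x‖ ≤ C := by
  have hc : HasCompactSupport f := by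
    apply HasCompactSupport.intro (isCompact_closedBall (0 : E) R)
    intro x hx
    by_contra h
    exact hx (by simpa using hR x h)
  obtain ⟨C, hC⟩ := Continuous.bounded_above_of_compact_support
    (hf.continuous_iteratedFDeriv (m := k) (by exact_mod_cast le_top)) (hc.iteratedFDeriv k)
  exact ⟨C, le_trans (norm_nonneg _) (hC 0), hC⟩

theorem smooth_tsum (f : ℕ → E → ℝ) (c : ℕ → ℝ) (hc : ∀ n, |c n| ≤ 1)
    (hf : ∀ n, ContDiff ℝ ∞ (f n))
    (hb : ∀ n k : ℕ, k ≤ n → ∀ w, ‖iteratedFDeriv ℝ k (f n) w‖ ≤ (1 / 2) ^ n) :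
    ContDiff ℝ ∞ (fun w => ∑' n, c n * f n w) := by
  apply contDiff_tsum_of_eventually (v := fun _ n => (1 / 2 : ℝ) ^ n)
  · intro n
    exact contDiff_const.mul (hf n)
  · intro k _
    exact summable_geometric_two
  · intro k _
    rw [Nat.cofinite_eq_atTop]
    filter_upwards [eventually_ge_atTop k] with n hn w
    have h1 : (fun w => c n * f n w) = fun w => c n • f n w := rfl
    rw [h1, iteratedFDeriv_const_smul_apply' ((hf n).contDiffAt.of_le (by exact_mod_cast le_top)),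
      norm_smul]
    calc ‖c n‖ * ‖iteratedFDeriv ℝ k (f n) w‖ ≤ 1 * (1 / 2) ^ n := by
          apply mul_le_mul (hc n) (hb n k hn w) (norm_nonneg _) zero_le_one
      _ = _ := one_mul _

/-- bounds for the difference of a translate -/
theorem diff_bound {f : E → ℝ} (hf : ContDiff ℝ ∞ f) (k : ℕ) {C : ℝ}
    (hC : ∀ x, ‖iteratedFDeriv ℝ (k + 1) f x‖ ≤ C) (e : E) (x : E) :
    ‖iteratedFDeriv ℝ k (fun w => f (w + e) - f w) x‖ ≤ C * ‖e‖ := by
  have h1 : iteratedFDeriv ℝ k (fun w => f (w + e) - f w) x =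
      iteratedFDeriv ℝ k f (x + e) - iteratedFDeriv ℝ k f x := by
    have h2 : ContDiff ℝ k (fun w => f (w + e)) :=
      (hf.comp (contDiff_id.add contDiff_const)).of_le (by exact_mod_cast le_top)
    have h3 : ContDiff ℝ k f := hf.of_le (by exact_mod_cast le_top)
    have h4 := iteratedFDeriv_sub_apply (𝕜 := ℝ) (i := k) (x := x) h2.contDiffAt h3.contDiffAt
    have h5 : (fun w => f (w + e) - f w) = (fun w => f (w + e)) - f := rfl
    rw [h5, h4, iteratedFDeriv_comp_add_right']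
  rw [h1]
  have h6 : Differentiable ℝ (iteratedFDeriv ℝ k f) :=
    hf.differentiable_iteratedFDeriv (m := k) (by exact_mod_cast ENat.natCast_lt_top k)
  have h7 := Convex.norm_image_sub_le_of_norm_fderiv_le (𝕜 := ℝ) (f := iteratedFDeriv ℝ k f)
    (s := univ) (x := x) (y := x + e) (C := C) (fun y _ => h6 y)
    (fun y _ => by rw [norm_fderiv_iteratedFDeriv]; exact hC y) convex_univ (mem_univ _)
    (mem_univ _)
  simpa using h7

end general


section data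

/-- powers of one half -/
noncomputable def hf (n : ℕ) : ℝ := (1 / 2) ^ n

theorem hf_pos (n : ℕ) : 0 < hf n := by unfold hf; positivity

theorem hf_le (n : ℕ) : hf n ≤ 1 := pow_le_one₀ (by norm_num) (by norm_num)

theorem hf_succ (n : ℕ) : hf (n + 1) = hf n / 2 := by unfold hf; rw [pow_succ]; ring

theorem hf_anti {m n : ℕ} (h : m ≤ n) : hf n ≤ hf m :=
  pow_le_pow_of_le_one (by norm_num) (by norm_num) h

theorem hf_lt {m n : ℕ} (h : m < n) : hf n ≤ hf m / 2 := by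
  have := hf_anti (Nat.succ_le_of_lt h)
  rwa [Nat.succ_eq_add_one, hf_succ] at this

variable (Z : Type) [NormedAddCommGroup Z]

/-- the resting points -/
noncomputable def pt (n : ℕ) : ℝ × Z := (-(hf n), 0)

theorem norm_pt (n : ℕ) : ‖pt Z n‖ = hf n := by
  unfold pt
  rw [Prod.norm_mk, norm_zero, norm_neg, Real.norm_eq_abs, abs_of_pos (hf_pos n)]
  exact max_eq_left (hf_pos n).le

/-- the shells without the resting points -/
def Shell (n : ℕ) : Set (ℝ × Z) :=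
  {w | 5 / 8 * hf n < ‖w‖ ∧ ‖w‖ < 11 / 8 * hf n ∧ w ≠ pt Z n}

theorem isOpen_shell (n : ℕ) : IsOpen (Shell Z n) := by
  have h1 : IsOpen {w : ℝ × Z | 5 / 8 * hf n < ‖w‖} := isOpen_lt continuous_const continuous_norm
  have h2 : IsOpen {w : ℝ × Z | ‖w‖ < 11 / 8 * hf n} := isOpen_lt continuous_norm continuous_const
  have h3 : IsOpen {w : ℝ × Z | w ≠ pt Z n} := isOpen_ne
  exact h1.inter (h2.inter h3)

/-- the thick shell around the resting point -/
def Thick (n : ℕ) : Set (ℝ × Z) :=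
  {w | ‖w - pt Z n‖ ≤ hf n / 4 ∧ hf n / 32 ≤ ‖w - pt Z n‖}

theorem isClosed_thick (n : ℕ) : IsClosed (Thick Z n) := by
  have h1 : IsClosed {w : ℝ × Z | ‖w - pt Z n‖ ≤ hf n / 4} :=
    isClosed_le (continuous_id.sub continuous_const).norm continuous_const
  have h2 : IsClosed {w : ℝ × Z | hf n / 32 ≤ ‖w - pt Z n‖} :=
    isClosed_le continuous_const (continuous_id.sub continuous_const).norm
  exact h1.inter h2

theorem near_norm {n : ℕ} {w : ℝ × Z} {r : ℝ} (h : ‖w - pt Z n‖ ≤ r) :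
    hf n - r ≤ ‖w‖ ∧ ‖w‖ ≤ hf n + r := by
  have h1 := norm_pt Z n
  have h2 : ‖pt Z n‖ ≤ ‖w‖ + ‖w - pt Z n‖ := by
    have := norm_sub_norm_le (pt Z n) w
    rw [norm_sub_rev] at this
    linarith
  have h3 : ‖w‖ ≤ ‖pt Z n‖ + ‖w - pt Z n‖ := by
    have := norm_sub_norm_le w (pt Z n)
    linarith
  rw [h1] at h2 h3
  constructor <;> linarith

theorem thick_sub (n : ℕ) : Thick Z n ⊆ Shell Z n := by
  rintro w ⟨h1, h2⟩
  have h3 := hf_pos n
  obtain ⟨h4, h5⟩ := near_norm Z h1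
  refine ⟨by linarith, by linarith, ?_⟩
  rintro rfl
  rw [sub_self, norm_zero] at h2
  linarith

/-- The bump functions. -/
structure Data [NormedSpace ℝ Z] where
  /-- the vertical speed near the `n`-th resting point -/
  ν : ℕ → ℝ × Z → ℝ
  /-- the twist near the `n`-th resting point -/
  β : ℕ → ℝ × Z → ℝ
  /-- the cut off of the rotation -/
  a : ℝ × Z → ℝ
  /-- the size of the vertical speed -/
  ε : ℕ → ℝ
  νd : ∀ n, ContDiff ℝ ∞ (ν n)
  ν01 : ∀ n w, 0 ≤ ν n w ∧ ν n w ≤ 1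
  νs : ∀ n w, ν n w ≠ 0 ↔ w ∈ Shell Z n
  ν1 : ∀ n, ∀ w ∈ Thick Z n, ν n w = 1
  βd : ∀ n, ContDiff ℝ ∞ (β n)
  β01 : ∀ n w, 0 ≤ β n w ∧ β n w ≤ 1
  βs : ∀ n w, β n w ≠ 0 ↔ ‖w - pt Z n‖ < hf n / 8
  β1 : ∀ n w, ‖w - pt Z n‖ ≤ hf n / 16 → β n w = 1
  ad : ContDiff ℝ ∞ a
  a01 : ∀ w, 0 ≤ a w ∧ a w ≤ 1
  as : ∀ w, a w ≠ 0 ↔ ‖w‖ < 11 / 8
  a1 : ∀ w, ‖w‖ ≤ 5 / 4 → a w = 1
  εp : ∀ n, 0 < ε n
  εl : ∀ n, ε n ≤ hf n / 100
  bν : ∀ n k : ℕ, k ≤ n + 1 → ∀ w,
    ‖iteratedFDeriv ℝ k (fun w => ε n * ν n w) w‖ ≤ 1 / 100 * (1 / 2) ^ n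
  bβ : ∀ n k : ℕ, k ≤ n → ∀ w,
    ‖iteratedFDeriv ℝ k (fun w => β n (w + ((ε n : ℝ), (0 : Z))) - β n w) w‖ ≤ (1 / 2) ^ n

theorem exists_data [NormedSpace ℝ Z] [FiniteDimensional ℝ Z] : Nonempty (Data Z) := by
  have e1 : ∀ n, ∃ f : ℝ × Z → ℝ, ContDiff ℝ ∞ f ∧ (∀ x, 0 ≤ f x ∧ f x ≤ 1) ∧
      (∀ x, f x ≠ 0 ↔ x ∈ Shell Z n) ∧ ∀ x ∈ Thick Z n, f x = 1 := fun n =>
    bump (isOpen_shell Z n) (isClosed_thick Z n) (thick_sub Z n)
  have e2 : ∀ n, ∃ f : ℝ × Z → ℝ, ContDiff ℝ ∞ f ∧ (∀ x, 0 ≤ f x ∧ f x ≤ 1) ∧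
      (∀ x, f x ≠ 0 ↔ x ∈ {w : ℝ × Z | ‖w - pt Z n‖ < hf n / 8}) ∧
      ∀ x ∈ {w : ℝ × Z | ‖w - pt Z n‖ ≤ hf n / 16}, f x = 1 := fun n => by
    apply bump
    · exact isOpen_lt (continuous_id.sub continuous_const).norm continuous_const
    · exact isClosed_le (continuous_id.sub continuous_const).norm continuous_const
    · intro w hw
      have := hf_pos n
      show ‖w - pt Z n‖ < hf n / 8
      have h1 : ‖w - pt Z n‖ ≤ hf n / 16 := hw
      linarith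
  have e3 : ∃ f : ℝ × Z → ℝ, ContDiff ℝ ∞ f ∧ (∀ x, 0 ≤ f x ∧ f x ≤ 1) ∧
      (∀ x, f x ≠ 0 ↔ x ∈ {w : ℝ × Z | ‖w‖ < 11 / 8}) ∧
      ∀ x ∈ {w : ℝ × Z | ‖w‖ ≤ 5 / 4}, f x = 1 := by
    apply bump
    · exact isOpen_lt continuous_norm continuous_const
    · exact isClosed_le continuous_norm continuous_const
    · intro w hw
      show ‖w‖ < 11 / 8
      have h1 : ‖w‖ ≤ 5 / 4 := hw
      linarith
  choose ν νd ν01 νs ν1 using e1
  choose β βd β01 βs β1 using e2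
  obtain ⟨a, ad, a01, as, a1⟩ := e3
  have c1 : ∀ n k, ∃ C, 0 ≤ C ∧ ∀ x, ‖iteratedFDeriv ℝ k (ν n) x‖ ≤ C := fun n k =>
    bdd (νd n) (R := 11 / 8 * hf n) (fun x hx => ((νs n x).1 hx).2.1.le) k
  have c2 : ∀ n k, ∃ C, 0 ≤ C ∧ ∀ x, ‖iteratedFDeriv ℝ k (β n) x‖ ≤ C := fun n k =>
    bdd (βd n) (R := hf n + hf n / 8) (fun x hx => (near_norm Z ((βs n x).1 hx).le).2) k
  choose C C0 hC using c1
  choose D D0 hD using c2
  set B : ℕ → ℝ := fun n => 1 + ∑ k ∈ Finset.range (n + 2), (C n k + D n k) with hB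
  have hB1 : ∀ n, 1 ≤ B n := fun n => by
    have : 0 ≤ ∑ k ∈ Finset.range (n + 2), (C n k + D n k) :=
      Finset.sum_nonneg fun k _ => add_nonneg (C0 n k) (D0 n k)
    simp only [hB]
    linarith
  have hBC : ∀ n k, k ≤ n + 1 → C n k ≤ B n ∧ D n k ≤ B n := fun n k hk => by
    have h1 : C n k + D n k ≤ ∑ k ∈ Finset.range (n + 2), (C n k + D n k) :=
      Finset.single_le_sum (f := fun k => C n k + D n k)
        (fun k _ => add_nonneg (C0 n k) (D0 n k)) (Finset.mem_range.2 (by omega))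
    have h2 := C0 n k
    have h3 := D0 n k
    simp only [hB]
    constructor <;> linarith
  refine ⟨⟨ν, β, a, fun n => hf n / 100 / B n, νd, ν01, νs, ν1, βd, β01, βs, β1, ad, a01, as, a1,
    ?_, ?_, ?_, ?_⟩⟩
  · intro n
    have := hf_pos n
    have := hB1 n
    positivity
  · intro n
    have := hf_pos n
    exact div_le_self (by positivity) (hB1 n)
  · intro n k hk w
    have h0 := hf_pos n
    have h1 := hB1 n
    have h2 : (fun w => hf n / 100 / B n * ν n w) = fun w => (hf n / 100 / B n) • ν n w := rfl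
    rw [h2, iteratedFDeriv_const_smul_apply' ((νd n).contDiffAt.of_le (by exact_mod_cast le_top)),
      norm_smul, Real.norm_eq_abs, abs_of_pos (by positivity)]
    calc hf n / 100 / B n * ‖iteratedFDeriv ℝ k (ν n) w‖ ≤ hf n / 100 / B n * B n := by
          apply mul_le_mul_of_nonneg_left ((hC n k w).trans (hBC n k hk).1)
          positivity
      _ = hf n / 100 := div_mul_cancel₀ _ (by linarith)
      _ ≤ 1 / 100 * (1 / 2) ^ n := by
          unfold hf at h0 ⊢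
          linarith
  · intro n k hk w
    have h0 := hf_pos n
    have h1 := hB1 n
    have h2 := diff_bound (βd n) k (C := B n)
      (fun x => (hD n (k + 1) x).trans (hBC n (k + 1) (by omega)).2)
      ((hf n / 100 / B n : ℝ), (0 : Z)) w
    refine h2.trans ?_
    rw [Prod.norm_mk, norm_zero, Real.norm_eq_abs, abs_of_pos (by positivity),
      max_eq_left (by positivity)]
    calc B n * (hf n / 100 / B n) = hf n / 100 := by field_simp
      _ ≤ (1 / 2) ^ n := by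
          unfold hf at h0 ⊢
          linarith

end data

end Pool.Agent.X219.TC
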