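import Pool.Agent.X219.TC.Trans

/-!
Rigidity: a conjugacy between `F s` and `F t` forces `amp (t n) - amp (s n)` to converge modulo `1`.
-/

set_option autoImplicit false
set_option linter.unusedSectionVars false

open Set Filter Topology Function
open scoped ContDiff Manifold

namespace Pool.Agent.X219.TC

/-! ### the circle -/

/-- `e x = exp (2 π i x)` -/
noncomputable def e (x : ℝ) : ℂ := Complex.exp (((2 * Real.pi * x : ℝ) : ℂ) * Complex.I)

theorem e_add (x y : ℝ) : e (x + y) = e x * e y := by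
  unfold e
  rw [← Complex.exp_add]
  congr 1
  push_cast
  ring

theorem e_zero : e 0 = 1 := by simp [e]

theorem norm_e1 (x : ℝ) : ‖e x‖ = 1 := by
  unfold e
  exact Complex.norm_exp_ofReal_mul_I _

theorem e_ne (x : ℝ) : e x ≠ 0 := Complex.exp_ne_zero _

theorem e_neg (x : ℝ) : e (-x) * e x = 1 := by
  rw [← e_add, neg_add_cancel, e_zero]

theorem e_one : e 1 = 1 := by
  unfold e
  have : (((2 * Real.pi * 1 : ℝ) : ℂ) * Complex.I) = 2 * Real.pi * Complex.I := by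
    push_cast
    ring
  rw [this, Complex.exp_two_pi_mul_I]

theorem continuous_e : Continuous e := by
  unfold e
  fun_prop

theorem e_eq_one {x : ℝ} (h : e x = 1) : ∃ n : ℤ, x = n := by
  unfold e at h
  rw [Complex.exp_eq_one_iff] at h
  obtain ⟨n, hn⟩ := h
  refine ⟨n, ?_⟩
  have h1 : ((2 * Real.pi * x : ℝ) : ℂ) = ((n * (2 * Real.pi) : ℝ) : ℂ) := by
    have h2 : ((2 * Real.pi * x : ℝ) : ℂ) * Complex.I =
        ((n * (2 * Real.pi) : ℝ) : ℂ) * Complex.I := by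
      rw [hn]
      push_cast
      ring
    exact mul_right_cancel₀ Complex.I_ne_zero h2
  have h3 : 2 * Real.pi * x = n * (2 * Real.pi) := by exact_mod_cast h1
  have h4 := Real.pi_pos
  have h5 : 2 * Real.pi * x = 2 * Real.pi * n := by rw [h3]; ring
  exact mul_left_cancel₀ (by positivity) h5

theorem exists_e {ζ : ℂ} (h : ‖ζ‖ = 1) : ∃ x, e x = ζ := by
  obtain ⟨θ, hθ⟩ := Complex.norm_eq_one_iff ζ |>.1 h
  refine ⟨θ / (2 * Real.pi), ?_⟩
  rw [← hθ, e]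
  congr 2
  push_cast
  have : (Real.pi : ℂ) ≠ 0 := by exact_mod_cast Real.pi_ne_zero
  field_simp

/-- the rotation -/
noncomputable def lam : ℂ := e (Real.sqrt 2)

theorem exists_ultra : ∃ U : Ultrafilter ℕ, (U : Filter ℕ) ≤ atTop ∧
    Tendsto (fun k : ℕ => lam ^ k) U (𝓝 1) := by
  have h1 := mapClusterPt_one_atTop_pow (Circle.exp (2 * Real.pi * Real.sqrt 2))
  rw [mapClusterPt_iff_ultrafilter] at h1
  obtain ⟨U, hU, hT⟩ := h1
  refine ⟨U, hU, ?_⟩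
  have h2 : Tendsto (fun k : ℕ => ((Circle.exp (2 * Real.pi * Real.sqrt 2) ^ k : Circle) : ℂ)) U
      (𝓝 ((1 : Circle) : ℂ)) :=
    ((continuous_subtype_val : Continuous fun z : Circle => (z : ℂ)).tendsto _).comp hT
  have h3 : ∀ k : ℕ, ((Circle.exp (2 * Real.pi * Real.sqrt 2) ^ k : Circle) : ℂ) = lam ^ k := by
    intro k
    rw [Circle.coe_pow, Circle.coe_exp]
    rfl
  simpa only [h3, Circle.coe_one] using h2

/-- the ultrafilter -/
noncomputable def Ul : Ultrafilter ℕ := exists_ultra.choose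

theorem Ul_le : (Ul : Filter ℕ) ≤ atTop := exists_ultra.choose_spec.1

theorem Ul_lam : Tendsto (fun k : ℕ => lam ^ k) Ul (𝓝 1) := exists_ultra.choose_spec.2

theorem lam_ne : lam ≠ 0 := e_ne _

theorem Ul_lam_inv : Tendsto (fun k : ℕ => lam⁻¹ ^ k) Ul (𝓝 1) := by
  have h := Ul_lam.inv₀ one_ne_zero
  simpa only [inv_pow, inv_one] using h

/-! ### the invariant region -/

variable {Z : Type} [NormedAddCommGroup Z] [NormedSpace ℝ Z]

/-- the region where the maps are not the identity -/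
def Rg (Z : Type) [NormedAddCommGroup Z] : Set (ℂ × Z) := {y | y.1 ≠ 0 ∧ ‖cw y‖ < 11 / 8}

theorem isOpen_Rg : IsOpen (Rg Z) := by
  rw [isOpen_iff_mem_nhds]
  rintro y ⟨h1, h2⟩
  have h3 : ∀ᶠ y' : ℂ × Z in 𝓝 y, y'.1 ≠ 0 := by
    have : ContinuousAt (fun y : ℂ × Z => y.1) y := continuousAt_fst
    exact this.eventually (isOpen_ne.mem_nhds h1)
  have h4 : ∀ᶠ y' : ℂ × Z in 𝓝 y, ‖cw y'‖ < 11 / 8 :=
    (continuousAt_cw h1).norm.eventually (gt_mem_nhds h2)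
  exact h3.and h4

variable [FiniteDimensional ℝ Z] (D : Data Z)

theorem Fs_eq (s : ℕ → ℝ) (y : ℂ × Z) :
    Fs D s y = (y.1 * ((Real.exp (D.v (cw y)) : ℝ) : ℂ) * e (D.A s (cw y)), y.2) := by
  unfold Fs cyl
  refine Prod.ext ?_ rfl
  show y.1 * Complex.exp _ = y.1 * _ * e _
  rw [Complex.exp_add, ← mul_assoc]
  congr 1
  rw [Complex.ofReal_exp]

theorem cw_Fs (s : ℕ → ℝ) {y : ℂ × Z} (h : y.1 ≠ 0) : cw (Fs D s y) = D.G (cw y) :=
  cw_cyl _ _ h

theorem cw_Gs (s : ℕ → ℝ) {y : ℂ × Z} (h : y.1 ≠ 0) : cw (Gs D s y) = D.G.symm (cw y) := by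
  unfold Gs
  rw [cw_cyl _ _ h]
  obtain ⟨h1, h2⟩ := D.G_symm (cw y)
  refine Prod.ext ?_ h2.symm
  show (cw y).1 + -D.v (D.G.symm (cw y)) = (D.G.symm (cw y)).1
  linarith

theorem norm_G_lt {w : ℝ × Z} (h : ‖w‖ < 11 / 8) : ‖D.G w‖ < 11 / 8 := by
  by_contra h1
  rw [not_lt] at h1
  have h2 := D.v_symm _ h1
  rw [Homeomorph.symm_apply_apply] at h2
  rw [← h2] at h1
  linarith

theorem norm_G_symm_lt {w : ℝ × Z} (h : ‖w‖ < 11 / 8) : ‖D.G.symm w‖ < 11 / 8 := by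
  by_contra h1
  rw [not_lt] at h1
  have h2 := D.v_far h1
  have h3 := D.G.apply_symm_apply w
  rw [D.G_apply, h2, add_zero] at h3
  have h4 : D.G.symm w = w := h3
  rw [h4] at h1
  linarith

theorem Fs_mem (s : ℕ → ℝ) {y : ℂ × Z} (h : y ∈ Rg Z) : Fs D s y ∈ Rg Z :=
  ⟨cyl_ne _ _ h.1, by rw [cw_Fs D s h.1]; exact norm_G_lt D h.2⟩

theorem Gs_mem (s : ℕ → ℝ) {y : ℂ × Z} (h : y ∈ Rg Z) : Gs D s y ∈ Rg Z :=
  ⟨cyl_ne _ _ h.1, by rw [cw_Gs D s h.1]; exact norm_G_symm_lt D h.2⟩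

theorem Fs_it (s : ℕ → ℝ) {y : ℂ × Z} (h : y ∈ Rg Z) (k : ℕ) :
    (Fs D s)^[k] y ∈ Rg Z ∧ cw ((Fs D s)^[k] y) = (D.G)^[k] (cw y) := by
  induction k with
  | zero => exact ⟨h, rfl⟩
  | succ k ih =>
    rw [iterate_succ_apply', iterate_succ_apply']
    exact ⟨Fs_mem D s ih.1, by rw [cw_Fs D s ih.1.1, ih.2]⟩

theorem Gs_it (s : ℕ → ℝ) {y : ℂ × Z} (h : y ∈ Rg Z) (k : ℕ) :
    (Gs D s)^[k] y ∈ Rg Z ∧ cw ((Gs D s)^[k] y) = (D.G.symm)^[k] (cw y) := by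
  induction k with
  | zero => exact ⟨h, rfl⟩
  | succ k ih =>
    rw [iterate_succ_apply', iterate_succ_apply']
    exact ⟨Gs_mem D s ih.1, by rw [cw_Gs D s ih.1.1, ih.2]⟩

/-- the resting points of the vertical map -/
theorem rest_iff {w : ℝ × Z} (hw : ‖w‖ < 11 / 8) :
    D.v w = 0 ↔ w = 0 ∨ ∃ n, w = pt Z n := by
  constructor
  · intro h
    by_contra hc
    push Not at hc
    exact (D.v_ne' w).2 ⟨hc.1, hw, hc.2⟩ h
  · rintro (rfl | ⟨n, rfl⟩)
    · exact D.v_zero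
    · exact D.v_pt n

theorem rest_norm {w : ℝ × Z} (h : w = 0 ∨ ∃ n, w = pt Z n) : ‖w‖ ≤ 1 ∧ w.2 = 0 := by
  rcases h with rfl | ⟨n, rfl⟩
  · simp
  · rw [norm_pt]
    exact ⟨hf_le n, rfl⟩

/-- at resting points the rotation is by `√2` -/
theorem A_rest (s : ℕ → ℝ) {w : ℝ × Z} (hw : ‖w‖ ≤ 5 / 4) (h : D.v w = 0) :
    D.A s w = Real.sqrt 2 := by
  have h1 : D.G w = w := by
    rw [D.G_apply, h, add_zero]
  rw [D.A_eq, h1, D.a1 w hw]
  ring

theorem Fs_rest (s : ℕ → ℝ) {y : ℂ × Z} (hw : ‖cw y‖ ≤ 5 / 4) (h : D.v (cw y) = 0) :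
    Fs D s y = (y.1 * lam, y.2) := by
  rw [Fs_eq, A_rest D s hw h, h, Real.exp_zero]
  simp [lam]

theorem fix_iff (s : ℕ → ℝ) (y : ℂ × Z) : Fs D s y ≠ y ↔ y ∈ Rg Z := by
  constructor
  · intro h
    by_contra hc
    apply h
    by_cases h0 : y.1 = 0
    · exact cyl_zero _ _ h0
    · have h1 : 11 / 8 ≤ ‖cw y‖ := by
        by_contra h2
        exact hc ⟨h0, not_le.1 h2⟩
      exact cyl_id (D.v_far h1) (D.A_far s h1)
  · rintro ⟨h0, h1⟩ h
    have h2 := norm_cyl D.v (D.A s) y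
    have h3 : cyl D.v (D.A s) y = y := h
    rw [h3] at h2
    have h4 : Real.exp (D.v (cw y)) = 1 := by
      have h5 : ‖y.1‖ ≠ 0 := norm_ne_zero_iff.2 h0
      have h6 : ‖y.1‖ * Real.exp (D.v (cw y)) = ‖y.1‖ * 1 := by rw [mul_one]; exact h2.symm
      exact mul_left_cancel₀ h5 h6
    have h5 : D.v (cw y) = 0 := by
      rwa [Real.exp_eq_one_iff] at h4
    have h6 := rest_norm ((rest_iff D h1).1 h5)
    rw [Fs_rest D s (by linarith [h6.1]) h5] at h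
    have h7 : y.1 * lam = y.1 * 1 := by
      rw [mul_one]; exact congrArg Prod.fst h
    have h8 : e (Real.sqrt 2) = 1 := mul_left_cancel₀ h0 h7
    obtain ⟨n, hn⟩ := e_eq_one h8
    exact irrational_sqrt_two.ne_int n hn

/-! ### circles -/

/-- the points of the circles -/
noncomputable def circ (Z : Type) [NormedAddCommGroup Z] (n : ℕ) (ζ : ℂ) : ℂ × Z :=
  (((Real.exp (-(hf n)) : ℝ) : ℂ) * ζ, 0)

theorem cw_circ (n : ℕ) {ζ : ℂ} (h : ‖ζ‖ = 1) : cw (circ Z n ζ) = pt Z n := by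
  refine Prod.ext ?_ rfl
  show Real.log ‖((Real.exp (-(hf n)) : ℝ) : ℂ) * ζ‖ = -(hf n)
  rw [norm_mul, h, mul_one, Complex.norm_real, Real.norm_eq_abs, abs_of_pos (Real.exp_pos _),
    Real.log_exp]

theorem circ_mem (n : ℕ) {ζ : ℂ} (h : ‖ζ‖ = 1) : circ Z n ζ ∈ Rg Z := by
  constructor
  · apply mul_ne_zero
    · exact_mod_cast (Real.exp_pos _).ne'
    · rintro rfl
      simp at h
  · rw [cw_circ n h, norm_pt]
    have := hf_le n
    linarith

theorem eq_circ {y : ℂ × Z} {n : ℕ} (h0 : y.1 ≠ 0) (h : cw y = pt Z n) :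
    ∃ ζ : ℂ, ‖ζ‖ = 1 ∧ y = circ Z n ζ := by
  have h1 : Real.log ‖y.1‖ = -(hf n) := congrArg Prod.fst h
  have h2 : y.2 = 0 := congrArg Prod.snd h
  have h3 : ‖y.1‖ = Real.exp (-(hf n)) := by
    rw [← h1, Real.exp_log (norm_pos_iff.2 h0)]
  have h4 : ((Real.exp (-(hf n)) : ℝ) : ℂ) ≠ 0 := by exact_mod_cast (Real.exp_pos _).ne'
  refine ⟨y.1 / ((Real.exp (-(hf n)) : ℝ) : ℂ), ?_, ?_⟩
  · rw [norm_div, h3, Complex.norm_real, Real.norm_eq_abs, abs_of_pos (Real.exp_pos _)]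
    exact div_self (Real.exp_pos _).ne'
  · refine Prod.ext ?_ h2
    show y.1 = _ * (y.1 / _)
    field_simp

theorem Fs_circ (s : ℕ → ℝ) (n : ℕ) {ζ : ℂ} (h : ‖ζ‖ = 1) :
    Fs D s (circ Z n ζ) = circ Z n (ζ * lam) := by
  have h1 := cw_circ (Z := Z) n h
  rw [Fs_rest D s (by rw [h1, norm_pt]; linarith [hf_le n]) (by rw [h1]; exact D.v_pt n)]
  refine Prod.ext ?_ rfl
  show _ * ζ * lam = _ * (ζ * lam)
  ring

theorem pt_inj {m n : ℕ} (h : pt Z m = pt Z n) : m = n := by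
  have h1 : hf m = hf n := by
    have := congrArg norm h
    rwa [norm_pt, norm_pt] at this
  rcases lt_trichotomy m n with h2 | h2 | h2
  · have := hf_lt h2
    have := hf_pos m
    linarith
  · exact h2
  · have := hf_lt h2
    have := hf_pos n
    linarith

end Pool.Agent.X219.TC
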