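import Pool.Agent.X219.TC.Twist

/-!
The diffeomorphisms of `ℂ × Z`, and the transfer to a manifold.
-/

set_option autoImplicit false
set_option linter.unusedSectionVars false

open Set Filter Topology Function
open scoped ContDiff Manifold

namespace Pool.Agent.X219.TC

section model

variable {Z : Type} [NormedAddCommGroup Z] [NormedSpace ℝ Z] [FiniteDimensional ℝ Z] (D : Data Z)

/-- the diffeomorphism `F s` -/
noncomputable def Fs (s : ℕ → ℝ) : ℂ × Z → ℂ × Z := cyl D.v (D.A s)

/-- its inverse -/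
noncomputable def Gs (s : ℕ → ℝ) : ℂ × Z → ℂ × Z :=
  cyl (fun w => -D.v (D.G.symm w)) (fun w => -D.A s (D.G.symm w))

theorem Gs_Fs (s : ℕ → ℝ) (y : ℂ × Z) : Gs D s (Fs D s y) = y := by
  unfold Gs Fs
  rw [cyl_comp]
  have h : ∀ w : ℝ × Z, D.G.symm (w.1 + D.v w, w.2) = w := fun w => by
    rw [← D.G_apply, Homeomorph.symm_apply_apply]
  apply cyl_id
  · simp [h]
  · simp [h]

theorem Fs_Gs (s : ℕ → ℝ) (y : ℂ × Z) : Fs D s (Gs D s y) = y := by
  unfold Gs Fs
  rw [cyl_comp]
  have h : ∀ w : ℝ × Z, (w.1 + -D.v (D.G.symm w), w.2) = D.G.symm w := fun w => by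
    obtain ⟨h1, h2⟩ := D.G_symm w
    refine Prod.ext ?_ h2.symm
    show w.1 + -D.v (D.G.symm w) = (D.G.symm w).1
    linarith
  apply cyl_id
  · simp [h]
  · simp [h]

theorem v_far' (w : ℝ × Z) (h : (11 / 8 : ℝ) ≤ ‖w‖) : -D.v (D.G.symm w) = 0 := by
  rw [D.v_symm w h, D.v_far h, neg_zero]

theorem A_far' (s : ℕ → ℝ) (w : ℝ × Z) (h : (11 / 8 : ℝ) ≤ ‖w‖) : -D.A s (D.G.symm w) = 0 := by
  rw [D.v_symm w h, D.A_far s h, neg_zero]

theorem contDiff_Fs (s : ℕ → ℝ) : ContDiff ℝ ∞ (Fs D s) :=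
  contDiff_cyl (R := 11 / 8) (fun _ h => D.v_far h) (fun _ h => D.A_far s h) D.contDiff_v
    (D.contDiff_A s)

theorem contDiff_Gs (s : ℕ → ℝ) : ContDiff ℝ ∞ (Gs D s) :=
  contDiff_cyl (R := 11 / 8) (v_far' D) (A_far' D s) (D.contDiff_v.comp D.contDiff_G_symm).neg
    ((D.contDiff_A s).comp D.contDiff_G_symm).neg

/-- the radius of the support -/
noncomputable def rad : ℝ := Real.exp (|(11 / 8 : ℝ)| + 1)

theorem Fs_far (s : ℕ → ℝ) {y : ℂ × Z} (h : rad < ‖y‖) : Fs D s y = y :=
  cyl_far (fun _ h => D.v_far h) (fun _ h => D.A_far s h) h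

theorem Gs_far (s : ℕ → ℝ) {y : ℂ × Z} (h : rad < ‖y‖) : Gs D s y = y :=
  cyl_far (v_far' D) (A_far' D s) h

/-- the conjugating homeomorphism -/
noncomputable def Hs (s t : ℕ → ℝ) : ℂ × Z → ℂ × Z := cyl (fun _ => 0) (D.Dd s t)

theorem Hs_inv (s t : ℕ → ℝ) (y : ℂ × Z) : Hs D t s (Hs D s t y) = y := by
  unfold Hs
  rw [cyl_comp]
  apply cyl_id
  · simp
  · simp [Data.Dd]

theorem Hs_conj (s t : ℕ → ℝ) (y : ℂ × Z) : Hs D s t (Fs D s y) = Fs D t (Hs D s t y) := by
  unfold Hs Fs
  rw [cyl_comp, cyl_comp]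
  have e1 : (fun w : ℝ × Z => D.v w + 0) = fun w => 0 + D.v (w.1 + 0, w.2) := by
    funext w; simp
  have e2 : (fun w : ℝ × Z => D.A s w + D.Dd s t (w.1 + D.v w, w.2)) =
      fun w => D.Dd s t w + D.A t (w.1 + 0, w.2) := by
    funext w
    have := D.A_Dd s t w
    rw [D.G_apply] at this
    rw [this]
    simp
  rw [e1, e2]

theorem continuous_Hs {s t : ℕ → ℝ} (h : Summable fun n => |s n - t n|) :
    Continuous (Hs D s t) :=
  continuous_cyl (R := 11 / 8) (fun _ _ => rfl) (fun _ h => D.Dd_far s t h) continuous_const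
    (D.continuous_Dd h)

theorem Hs_far (s t : ℕ → ℝ) {y : ℂ × Z} (h : rad < ‖y‖) : Hs D s t y = y :=
  cyl_far (fun _ _ => rfl) (fun _ h => D.Dd_far s t h) h

end model

section trans

variable {M V : Type} {ι : V → M}

/-- extension by the identity -/
noncomputable def ext (ι : V → M) (F : V → V) : M → M := extend ι (fun y => ι (F y)) id

theorem ext_apply (hι : Injective ι) (F : V → V) (y : V) : ext ι F (ι y) = ι (F y) :=
  hι.extend_apply _ _ _

theorem ext_off (F : V → V) {x : M} (hx : x ∉ range ι) : ext ι F x = x :=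
  extend_apply' _ _ _ hx

theorem ext_comp (hι : Injective ι) (F F' : V → V) (x : M) :
    ext ι F' (ext ι F x) = ext ι (fun y => F' (F y)) x := by
  by_cases hx : x ∈ range ι
  · obtain ⟨y, rfl⟩ := hx
    rw [ext_apply hι, ext_apply hι, ext_apply hι]
  · rw [ext_off F hx, ext_off F' hx, ext_off _ hx]

theorem ext_id (hι : Injective ι) {F : V → V} (hF : ∀ y, F y = y) (x : M) : ext ι F x = x := by
  by_cases hx : x ∈ range ι
  · obtain ⟨y, rfl⟩ := hx
    rw [ext_apply hι, hF]
  · exact ext_off F hx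

theorem ext_fix (hι : Injective ι) {F : V → V} {K : Set V} (hF : ∀ y, y ∉ K → F y = y) {x : M}
    (hx : x ∉ ι '' K) : ext ι F x = x := by
  by_cases hr : x ∈ range ι
  · obtain ⟨y, rfl⟩ := hr
    rw [ext_apply hι, hF y (fun h => hx ⟨y, h, rfl⟩)]
  · exact ext_off F hr

theorem continuous_ext [TopologicalSpace M] [TopologicalSpace V] [T2Space M]
    (hι : IsOpenEmbedding ι) {F : V → V} {K : Set V} (hK : IsCompact K)
    (hF : ∀ y, y ∉ K → F y = y) (hc : Continuous F) : Continuous (ext ι F) := by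
  rw [continuous_iff_continuousAt]
  intro x
  by_cases hx : x ∈ range ι
  · obtain ⟨y, rfl⟩ := hx
    rw [← hι.continuousAt_iff]
    have : ext ι F ∘ ι = fun y => ι (F y) := by
      funext y
      exact ext_apply hι.injective F y
    rw [this]
    exact (hι.continuous.comp hc).continuousAt
  · have h1 : (ι '' K)ᶜ ∈ 𝓝 x := by
      apply (hK.image hι.continuous).isClosed.isOpen_compl.mem_nhds
      rintro ⟨y, _, rfl⟩
      exact hx ⟨y, rfl⟩
    apply continuousAt_id.congr
    filter_upwards [h1] with z hz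
    exact (ext_fix hι.injective hF hz).symm

end trans

section manifold

variable {m : ℕ} {M : Type} [TopologicalSpace M] [ChartedSpace (EuclideanSpace ℝ (Fin m)) M]
  {V : Type} [NormedAddCommGroup V] [NormedSpace ℝ V]

/-- a smooth open embedding of `V` -/
structure Emb (m : ℕ) (M : Type) [TopologicalSpace M]
    [ChartedSpace (EuclideanSpace ℝ (Fin m)) M] (V : Type) [NormedAddCommGroup V]
    [NormedSpace ℝ V] where
  /-- the embedding -/
  ι : V → M
  /-- its inverse -/
  κ : M → V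
  op : IsOpenEmbedding ι
  left : ∀ y, κ (ι y) = y
  sm : ContMDiff 𝓘(ℝ, V) (𝓡 m) ∞ ι
  sm' : ContMDiffOn (𝓡 m) 𝓘(ℝ, V) ∞ κ (range ι)

theorem exists_emb [IsManifold (𝓡 m) ∞ M] [Nonempty M]
    (L : V ≃L[ℝ] EuclideanSpace ℝ (Fin m)) : Nonempty (Emb m M V) := by
  obtain ⟨p⟩ := (inferInstance : Nonempty M)
  set φ := chartAt (EuclideanSpace ℝ (Fin m)) p with hφ
  obtain ⟨r, hr, hb⟩ := Metric.isOpen_iff.1 φ.open_target (φ p)
    (φ.map_source (mem_chart_source _ p))
  set u : OpenPartialHomeomorph (EuclideanSpace ℝ (Fin m)) (EuclideanSpace ℝ (Fin m)) :=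
    OpenPartialHomeomorph.univBall (φ p) r with hu
  have hus : u.source = univ := OpenPartialHomeomorph.univBall_source _ _
  have hut : u.target = Metric.ball (φ p) r := OpenPartialHomeomorph.univBall_target _ hr
  have hmem : ∀ x, u x ∈ Metric.ball (φ p) r := fun x => by
    rw [← hut]
    exact u.map_source (by rw [hus]; exact mem_univ _)
  have hinv : ∀ x, u.symm (u x) = x := fun x => u.left_inv (by rw [hus]; exact mem_univ _)
  have hleft : ∀ y, L.symm (u.symm (φ (φ.symm (u (L y))))) = y := fun y => by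
    rw [φ.right_inv (hb (hmem _)), hinv, ContinuousLinearEquiv.symm_apply_apply]
  have hcont : Continuous fun y => φ.symm (u (L y)) := by
    have h1 : Continuous fun y => u (L y) :=
      (OpenPartialHomeomorph.continuous_univBall _ _).comp L.continuous
    exact φ.symm.continuousOn.comp_continuous h1 (fun y => hb (hmem _))
  have hrange : range (fun y => φ.symm (u (L y))) = φ.source ∩ φ ⁻¹' Metric.ball (φ p) r := by
    ext x
    constructor
    · rintro ⟨y, rfl⟩
      refine ⟨φ.map_target (hb (hmem _)), ?_⟩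
      show φ (φ.symm (u (L y))) ∈ Metric.ball (φ p) r
      rw [φ.right_inv (hb (hmem _))]
      exact hmem _
    · rintro ⟨h1, h2⟩
      refine ⟨L.symm (u.symm (φ x)), ?_⟩
      show φ.symm (u (L (L.symm (u.symm (φ x))))) = x
      rw [ContinuousLinearEquiv.apply_symm_apply, u.right_inv (by rw [hut]; exact h2),
        φ.left_inv h1]
  have hκ : ContinuousOn (fun x => L.symm (u.symm (φ x)))
      (φ.source ∩ φ ⁻¹' Metric.ball (φ p) r) := by
    refine L.symm.continuous.comp_continuousOn ?_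
    refine u.symm.continuousOn.comp (φ.continuousOn.mono inter_subset_left) ?_
    intro x hx
    show φ x ∈ u.target
    rw [hut]
    exact hx.2
  have hopen : IsOpen (φ.source ∩ φ ⁻¹' Metric.ball (φ p) r) :=
    φ.isOpen_inter_preimage Metric.isOpen_ball
  refine ⟨⟨fun y => φ.symm (u (L y)), fun x => L.symm (u.symm (φ x)), ?_, hleft, ?_, ?_⟩⟩
  · apply IsOpenEmbedding.of_continuous_injective_isOpenMap hcont
    · exact (show LeftInverse (fun x => L.symm (u.symm (φ x))) (fun y => φ.symm (u (L y))) from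
        hleft).injective
    · intro U hU
      have : (fun y => φ.symm (u (L y))) '' U = (φ.source ∩ φ ⁻¹' Metric.ball (φ p) r) ∩
          (fun x => L.symm (u.symm (φ x))) ⁻¹' U := by
        rw [← hrange]
        ext x
        constructor
        · rintro ⟨y, hy, rfl⟩
          refine ⟨⟨y, rfl⟩, ?_⟩
          show L.symm (u.symm (φ (φ.symm (u (L y))))) ∈ U
          rw [hleft]
          exact hy
        · rintro ⟨⟨y, rfl⟩, hy⟩
          refine ⟨y, ?_, rfl⟩
          have hy' : L.symm (u.symm (φ (φ.symm (u (L y))))) ∈ U := hy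
          rwa [hleft] at hy'
      rw [this]
      exact hκ.isOpen_inter_preimage hopen hU
  · have h1 : ContMDiff 𝓘(ℝ, V) (𝓡 m) ∞ (fun y => u (L y)) := by
      have h2 : ContDiff ℝ ∞ (fun y => u (L y)) :=
        OpenPartialHomeomorph.contDiff_univBall.comp L.contDiff
      exact h2.contMDiff
    have h3 : ContMDiffOn (𝓡 m) (𝓡 m) ∞ φ.symm φ.target :=
      contMDiffOn_chart_symm (I := 𝓡 m) (n := ∞) (x := p)
    intro y
    have h4 : ContMDiffAt (𝓡 m) (𝓡 m) ∞ φ.symm (u (L y)) :=
      h3.contMDiffAt (φ.open_target.mem_nhds (hb (hmem _)))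
    exact h4.comp y (h1 y)
  · rw [hrange]
    have h1 : ContMDiffOn (𝓡 m) (𝓡 m) ∞ φ φ.source :=
      contMDiffOn_chart (I := 𝓡 m) (n := ∞) (x := p)
    have h2 : ContMDiffOn (𝓡 m) 𝓘(ℝ, V) ∞ (fun x => L.symm (u.symm x))
        (Metric.ball (φ p) r) := by
      have h3 : ContDiffOn ℝ ∞ (fun x => L.symm (u.symm x)) (Metric.ball (φ p) r) :=
        L.symm.contDiff.comp_contDiffOn OpenPartialHomeomorph.contDiffOn_univBall_symm
      exact h3.contMDiffOn
    exact h2.comp (h1.mono inter_subset_left) (fun x hx => hx.2)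

theorem contMDiff_ext [T2Space M] (e : Emb m M V) {F : V → V} {K : Set V} (hK : IsCompact K)
    (hF : ∀ y, y ∉ K → F y = y) (hd : ContDiff ℝ ∞ F) :
    ContMDiff (𝓡 m) (𝓡 m) ∞ (ext e.ι F) := by
  intro x
  by_cases hx : x ∈ range e.ι
  · have h1 : ContMDiffAt (𝓡 m) (𝓡 m) ∞ (fun x => e.ι (F (e.κ x))) x := by
      have h2 : ContMDiffAt (𝓡 m) 𝓘(ℝ, V) ∞ e.κ x :=
        e.sm'.contMDiffAt (e.op.isOpen_range.mem_nhds hx)
      have h3 : ContMDiffAt 𝓘(ℝ, V) 𝓘(ℝ, V) ∞ F (e.κ x) := hd.contMDiff _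
      have h4 : ContMDiffAt 𝓘(ℝ, V) (𝓡 m) ∞ e.ι (F (e.κ x)) := e.sm _
      exact h4.comp x (h3.comp x h2)
    apply h1.congr_of_eventuallyEq
    filter_upwards [e.op.isOpen_range.mem_nhds hx] with z hz
    obtain ⟨y, rfl⟩ := hz
    rw [ext_apply e.op.injective, e.left]
  · have h1 : (e.ι '' K)ᶜ ∈ 𝓝 x := by
      apply (hK.image e.op.continuous).isClosed.isOpen_compl.mem_nhds
      rintro ⟨y, _, rfl⟩
      exact hx ⟨y, rfl⟩
    apply contMDiffAt_id.congr_of_eventuallyEq
    filter_upwards [h1] with z hz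
    exact ext_fix e.op.injective hF hz

end manifold

section family

variable {m : ℕ} {M : Type} [TopologicalSpace M] [ChartedSpace (EuclideanSpace ℝ (Fin m)) M]
  [T2Space M] {Z : Type} [NormedAddCommGroup Z] [NormedSpace ℝ Z] [FiniteDimensional ℝ Z]
  (D : Data Z) (e : Emb m M (ℂ × Z))

theorem compactK : IsCompact (Metric.closedBall (0 : ℂ × Z) rad) := isCompact_closedBall _ _

theorem off {y : ℂ × Z} (h : y ∉ Metric.closedBall (0 : ℂ × Z) rad) : rad < ‖y‖ := by
  rw [mem_closedBall_zero_iff, not_le] at h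
  exact h

/-- the diffeomorphisms of `M` -/
noncomputable def fam (s : ℕ → ℝ) : Diffeomorph (𝓡 m) (𝓡 m) M M ∞ where
  toFun := ext e.ι (Fs D s)
  invFun := ext e.ι (Gs D s)
  left_inv x := by
    rw [ext_comp e.op.injective]
    exact ext_id e.op.injective (Gs_Fs D s) x
  right_inv x := by
    rw [ext_comp e.op.injective]
    exact ext_id e.op.injective (Fs_Gs D s) x
  contMDiff_toFun := contMDiff_ext e compactK (fun _ h => Fs_far D s (off h)) (contDiff_Fs D s)
  contMDiff_invFun := contMDiff_ext e compactK (fun _ h => Gs_far D s (off h)) (contDiff_Gs D s)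

theorem fam_apply (s : ℕ → ℝ) (x : M) : fam D e s x = ext e.ι (Fs D s) x := rfl

/-- the conjugating homeomorphisms of `M` -/
noncomputable def conjH {s t : ℕ → ℝ} (h : Summable fun n => |s n - t n|) : M ≃ₜ M where
  toFun := ext e.ι (Hs D s t)
  invFun := ext e.ι (Hs D t s)
  left_inv x := by
    rw [ext_comp e.op.injective]
    exact ext_id e.op.injective (Hs_inv D s t) x
  right_inv x := by
    rw [ext_comp e.op.injective]
    exact ext_id e.op.injective (Hs_inv D t s) x
  continuous_toFun := continuous_ext e.op compactK (fun _ h => Hs_far D s t (off h))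
    (continuous_Hs D h)
  continuous_invFun := continuous_ext e.op compactK (fun _ h => Hs_far D t s (off h))
    (continuous_Hs D (by simpa only [abs_sub_comm] using h))

theorem conj_of_summable {s t : ℕ → ℝ} (h : Summable fun n => |s n - t n|) :
    ∃ H : M ≃ₜ M, ∀ x, H (fam D e s x) = fam D e t (H x) := by
  refine ⟨conjH D e h, fun x => ?_⟩
  show ext e.ι (Hs D s t) (ext e.ι (Fs D s) x) = ext e.ι (Fs D t) (ext e.ι (Hs D s t) x)
  rw [ext_comp e.op.injective, ext_comp e.op.injective]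
  congr 1
  funext y
  exact Hs_conj D s t y

end family

end Pool.Agent.X219.TC
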