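import Pool.Agent.X219.TC.Vert

/-!
The twists and the cylinder maps.
-/

set_option autoImplicit false
set_option linter.unusedSectionVars false

open Set Filter Topology Function
open scoped ContDiff Manifold

namespace Pool.Agent.X219.TC

variable {Z : Type} [NormedAddCommGroup Z] [NormedSpace ℝ Z]

/-- the amplitude -/
noncomputable def amp (x : ℝ) : ℝ := Real.sin x / 2

theorem abs_amp (x : ℝ) : |amp x| ≤ 1 := by
  unfold amp
  have h1 := Real.neg_one_le_sin x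
  have h2 := Real.sin_le_one x
  rw [abs_le]
  constructor <;> linarith

theorem amp_lip (x y : ℝ) : |amp x - amp y| ≤ |x - y| := by
  have h : |Real.sin x - Real.sin y| ≤ |x - y| := by
    have := Real.lipschitzWith_sin.dist_le_mul x y
    simpa [Real.dist_eq] using this
  unfold amp
  rw [← sub_div, abs_div, abs_two]
  have h1 := abs_nonneg (Real.sin x - Real.sin y)
  have h2 := abs_nonneg (x - y)
  linarith

theorem continuous_amp : Continuous amp := Real.continuous_sin.div_const 2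

namespace Data

variable (D : Data Z) [FiniteDimensional ℝ Z]

theorem Δ_far {n : ℕ} {w : ℝ × Z} (h : 11 / 8 ≤ ‖w‖) : D.Δ n w = 0 := by
  have p0 := hf_pos n
  have p1 := D.εp n
  have p2 := D.εl n
  have p3 := hf_le n
  have h2 : ∀ x : ℝ, |x| ≤ D.ε n → D.β n (w + ((x : ℝ), (0 : Z))) = 0 := by
    intro x hx
    apply D.β_zero
    by_contra h3
    rw [not_le] at h3
    have h4 := (near_norm Z h3.le).2
    have h5 := norm_sub_le (w + ((x : ℝ), (0 : Z))) ((x : ℝ), (0 : Z))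
    rw [add_sub_cancel_right, norm_e] at h5
    linarith
  have h3 := h2 (D.ε n) (by rw [abs_of_pos p1])
  have h4 := h2 0 (by rw [abs_zero]; exact p1.le)
  have h5 : w + (((0 : ℝ), (0 : Z)) : ℝ × Z) = w := by simp
  rw [h5] at h4
  unfold Δ
  rw [h3, h4, sub_zero]

/-- the rotation angle -/
noncomputable def A (s : ℕ → ℝ) (w : ℝ × Z) : ℝ :=
  Real.sqrt 2 * D.a w + ∑' n, amp (s n) * D.Δ n w

theorem contDiff_A (s : ℕ → ℝ) : ContDiff ℝ ∞ (D.A s) := by
  refine (contDiff_const.mul D.ad).add ?_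
  refine smooth_tsum (fun n w => D.Δ n w) (fun n => amp (s n)) (fun n => abs_amp _) (fun n => ?_)
    (fun n k hk w => D.bβ n k hk w)
  exact ((D.βd n).comp (contDiff_id.add contDiff_const)).sub (D.βd n)

theorem A_far (s : ℕ → ℝ) {w : ℝ × Z} (h : 11 / 8 ≤ ‖w‖) : D.A s w = 0 := by
  have h1 : D.a w = 0 := by
    by_contra h1
    have := (D.as w).1 h1
    linarith
  unfold A
  simp only [D.Δ_far h, h1, mul_zero, tsum_zero, add_zero]

theorem fin_β (w : ℝ × Z) : {n | D.β n w ≠ 0}.Subsingleton := by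
  have key : ∀ m n : ℕ, m < n → D.β m w ≠ 0 → D.β n w ≠ 0 → False := by
    intro m n hmn hm hn
    obtain ⟨h1, h2⟩ := near_norm Z ((D.βs m w).1 hm).le
    obtain ⟨h3, h4⟩ := near_norm Z ((D.βs n w).1 hn).le
    have := hf_lt hmn
    have := hf_pos m
    linarith
  intro m hm n hn
  rcases lt_trichotomy m n with h | h | h
  · exact (key m n h hm hn).elim
  · exact h
  · exact (key n m h hn hm).elim

theorem summable_β (c : ℕ → ℝ) (w : ℝ × Z) : Summable fun n => c n * D.β n w := by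
  apply summable_of_hasFiniteSupport
  apply (D.fin_β w).finite.subset
  intro n hn
  exact right_ne_zero_of_mul hn

/-- the total twist -/
noncomputable def Ψ (s : ℕ → ℝ) (w : ℝ × Z) : ℝ := ∑' n, amp (s n) * D.β n w

theorem Ψ_G (s : ℕ → ℝ) (w : ℝ × Z) :
    D.Ψ s (D.G w) - D.Ψ s w = ∑' n, amp (s n) * D.Δ n w := by
  unfold Ψ
  rw [← (D.summable_β _ _).tsum_sub (D.summable_β _ _)]
  congr 1
  funext n
  rw [Δ_eq]
  ring

theorem A_eq (s : ℕ → ℝ) (w : ℝ × Z) :
    D.A s w = Real.sqrt 2 * D.a w + (D.Ψ s (D.G w) - D.Ψ s w) := by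
  rw [Ψ_G, A]

theorem Ψ_near (s : ℕ → ℝ) {n : ℕ} {w : ℝ × Z} (h : ‖w - pt Z n‖ ≤ hf n / 16) :
    D.Ψ s w = amp (s n) := by
  unfold Ψ
  rw [tsum_eq_single n, D.β1 n w h, mul_one]
  intro m hm
  have h1 : D.β m w = 0 := by
    by_contra h2
    exact hm (D.fin_β w h2 (by
      show D.β n w ≠ 0
      rw [D.β1 n w h]
      exact one_ne_zero))
  rw [h1, mul_zero]

/-- the difference of the total twists -/
noncomputable def Dd (s t : ℕ → ℝ) (w : ℝ × Z) : ℝ := D.Ψ t w - D.Ψ s w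

theorem Dd_eq (s t : ℕ → ℝ) (w : ℝ × Z) :
    D.Dd s t w = ∑' n, (amp (t n) - amp (s n)) * D.β n w := by
  unfold Dd Ψ
  rw [← (D.summable_β _ _).tsum_sub (D.summable_β _ _)]
  congr 1
  funext n
  ring

theorem continuous_Dd {s t : ℕ → ℝ} (h : Summable fun n => |s n - t n|) :
    Continuous (D.Dd s t) := by
  have h1 : D.Dd s t = fun w => ∑' n, (amp (t n) - amp (s n)) * D.β n w := by
    funext w; exact D.Dd_eq s t w
  rw [h1]
  refine continuous_tsum (u := fun n => |s n - t n|) (fun n => ?_) h (fun n w => ?_)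
  · exact continuous_const.mul (D.βd n).continuous
  · rw [Real.norm_eq_abs, abs_mul]
    obtain ⟨h2, h3⟩ := D.β01 n w
    rw [abs_of_nonneg h2]
    have h4 := amp_lip (t n) (s n)
    rw [abs_sub_comm (t n)] at h4
    calc |amp (t n) - amp (s n)| * D.β n w ≤ |s n - t n| * 1 :=
          mul_le_mul h4 h3 h2 (abs_nonneg _)
      _ = _ := mul_one _

theorem Dd_far (s t : ℕ → ℝ) {w : ℝ × Z} (h : 11 / 8 ≤ ‖w‖) : D.Dd s t w = 0 := by
  rw [Dd_eq]
  have : ∀ n, D.β n w = 0 := fun n => by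
    apply D.β_zero
    by_contra h3
    rw [not_le] at h3
    have h4 := (near_norm Z h3.le).2
    have p0 := hf_pos n
    have p3 := hf_le n
    linarith
  simp only [this, mul_zero, tsum_zero]

theorem A_Dd (s t : ℕ → ℝ) (w : ℝ × Z) :
    D.A s w + D.Dd s t (D.G w) = D.Dd s t w + D.A t w := by
  rw [A_eq, A_eq, Dd, Dd]
  ring

end Data

/-! ### cylinder maps -/

/-- cylinder coordinates -/
noncomputable def cw (y : ℂ × Z) : ℝ × Z := (Real.log ‖y.1‖, y.2)

/-- the cylinder map with vertical part `p` and rotation `q` -/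
noncomputable def cyl (p q : ℝ × Z → ℝ) (y : ℂ × Z) : ℂ × Z :=
  (y.1 * Complex.exp ((p (cw y) : ℝ) + (2 * Real.pi * q (cw y) : ℝ) * Complex.I), y.2)

theorem norm_cexp (a b : ℝ) : ‖Complex.exp ((a : ℝ) + (b : ℝ) * Complex.I)‖ = Real.exp a := by
  rw [Complex.norm_exp]
  simp

theorem norm_cyl (p q : ℝ × Z → ℝ) (y : ℂ × Z) :
    ‖(cyl p q y).1‖ = ‖y.1‖ * Real.exp (p (cw y)) := by
  unfold cyl
  rw [norm_mul, norm_cexp]

theorem cyl_ne (p q : ℝ × Z → ℝ) {y : ℂ × Z} (h : y.1 ≠ 0) : (cyl p q y).1 ≠ 0 :=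
  mul_ne_zero h (Complex.exp_ne_zero _)

theorem cyl_zero (p q : ℝ × Z → ℝ) {y : ℂ × Z} (h : y.1 = 0) : cyl p q y = y := by
  unfold cyl
  rw [h, zero_mul]
  exact Prod.ext h.symm rfl

theorem cw_cyl (p q : ℝ × Z → ℝ) {y : ℂ × Z} (h : y.1 ≠ 0) :
    cw (cyl p q y) = ((cw y).1 + p (cw y), (cw y).2) := by
  refine Prod.ext ?_ rfl
  show Real.log ‖(cyl p q y).1‖ = Real.log ‖y.1‖ + p (cw y)
  rw [norm_cyl, Real.log_mul (norm_ne_zero_iff.2 h) (Real.exp_pos _).ne', Real.log_exp]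

theorem cyl_comp (p q p' q' : ℝ × Z → ℝ) (y : ℂ × Z) :
    cyl p' q' (cyl p q y) =
      cyl (fun w => p w + p' (w.1 + p w, w.2)) (fun w => q w + q' (w.1 + p w, w.2)) y := by
  by_cases h : y.1 = 0
  · rw [cyl_zero p q h, cyl_zero _ _ h, cyl_zero _ _ h]
  · refine Prod.ext ?_ rfl
    have h1 := cw_cyl p q h
    show (cyl p q y).1 * Complex.exp _ = y.1 * Complex.exp _
    rw [h1]
    show y.1 * Complex.exp _ * Complex.exp _ = _
    rw [mul_assoc, ← Complex.exp_add]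
    congr 2
    push_cast
    ring

theorem cyl_id {p q : ℝ × Z → ℝ} {y : ℂ × Z} (hp : p (cw y) = 0) (hq : q (cw y) = 0) :
    cyl p q y = y := by
  unfold cyl
  rw [hp, hq]
  simp

theorem cyl_far {p q : ℝ × Z → ℝ} {R : ℝ} (hp : ∀ w, R ≤ ‖w‖ → p w = 0)
    (hq : ∀ w, R ≤ ‖w‖ → q w = 0) {y : ℂ × Z} (h : Real.exp (|R| + 1) < ‖y‖) :
    cyl p q y = y := by
  have h1 : R ≤ ‖cw y‖ := by
    rw [Prod.norm_def] at h
    rcases lt_max_iff.1 h with h | h
    · have h2 : |R| + 1 < Real.log ‖y.1‖ := by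
        rw [Real.lt_log_iff_exp_lt (lt_trans (Real.exp_pos _) h)]
        exact h
      have h3 : ‖(cw y).1‖ ≤ ‖cw y‖ := norm_fst_le _
      have h4 : Real.log ‖y.1‖ ≤ ‖(cw y).1‖ := le_abs_self _
      have h5 := le_abs_self R
      linarith
    · have h3 : ‖(cw y).2‖ ≤ ‖cw y‖ := norm_snd_le _
      have h4 : (cw y).2 = y.2 := rfl
      rw [h4] at h3
      have h5 := le_abs_self R
      have h6 := Real.add_one_le_exp (|R| + 1)
      linarith
  exact cyl_id (hp _ h1) (hq _ h1)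

/-- near the axis the maps are the identity -/
theorem cyl_axis {p q : ℝ × Z → ℝ} {R : ℝ} (hp : ∀ w, R ≤ ‖w‖ → p w = 0)
    (hq : ∀ w, R ≤ ‖w‖ → q w = 0) {y : ℂ × Z} (h : ‖y.1‖ < Real.exp (-(|R| + 1))) :
    cyl p q y = y := by
  by_cases h0 : y.1 = 0
  · exact cyl_zero _ _ h0
  have h1 : R ≤ ‖cw y‖ := by
    have h2 : Real.log ‖y.1‖ < -(|R| + 1) := by
      rw [Real.log_lt_iff_lt_exp (norm_pos_iff.2 h0)]
      exact h
    have h3 : ‖(cw y).1‖ ≤ ‖cw y‖ := norm_fst_le _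
    have h4 : -Real.log ‖y.1‖ ≤ ‖(cw y).1‖ := neg_le_abs _
    have h5 := le_abs_self R
    linarith
  exact cyl_id (hp _ h1) (hq _ h1)

theorem contDiffAt_cw {y : ℂ × Z} (h : y.1 ≠ 0) : ContDiffAt ℝ ∞ (cw : ℂ × Z → ℝ × Z) y := by
  refine ContDiffAt.prodMk ?_ contDiffAt_snd
  have h1 : ContDiffAt ℝ ∞ (fun y : ℂ × Z => ‖y.1‖) y := contDiffAt_fst.norm ℝ h
  exact h1.log (norm_ne_zero_iff.2 h)

theorem contDiff_cyl {p q : ℝ × Z → ℝ} {R : ℝ} (hp : ∀ w, R ≤ ‖w‖ → p w = 0)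
    (hq : ∀ w, R ≤ ‖w‖ → q w = 0) (hpd : ContDiff ℝ ∞ p) (hqd : ContDiff ℝ ∞ q) :
    ContDiff ℝ ∞ (cyl p q : ℂ × Z → ℂ × Z) := by
  rw [contDiff_iff_contDiffAt]
  intro y
  by_cases h : y.1 = 0
  · have h1 : ∀ᶠ y' : ℂ × Z in 𝓝 y, cyl p q y' = id y' := by
      have h2 : ContinuousAt (fun y : ℂ × Z => ‖y.1‖) y := continuous_fst.norm.continuousAt
      have h3 : ‖y.1‖ < Real.exp (-(|R| + 1)) := by
        rw [h, norm_zero]
        exact Real.exp_pos _
      filter_upwards [h2.eventually (gt_mem_nhds h3)] with y' hy'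
      exact cyl_axis hp hq hy'
    exact contDiffAt_id.congr_of_eventuallyEq h1
  · have h1 := contDiffAt_cw h
    have h2 : ContDiffAt ℝ ∞ (fun y : ℂ × Z => p (cw y)) y := hpd.contDiffAt.comp y h1
    have h3 : ContDiffAt ℝ ∞ (fun y : ℂ × Z => 2 * Real.pi * q (cw y)) y :=
      contDiffAt_const.mul (hqd.contDiffAt.comp y h1)
    refine ContDiffAt.prodMk ?_ contDiffAt_snd
    refine contDiffAt_fst.mul ?_
    refine ContDiffAt.cexp ?_
    refine ContDiffAt.add ?_ ?_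
    · exact Complex.ofRealCLM.contDiff.contDiffAt.comp y h2
    · exact (Complex.ofRealCLM.contDiff.contDiffAt.comp y h3).mul contDiffAt_const

theorem continuousAt_cw {y : ℂ × Z} (h : y.1 ≠ 0) : ContinuousAt (cw : ℂ × Z → ℝ × Z) y :=
  (contDiffAt_cw h).continuousAt

theorem continuous_cyl {p q : ℝ × Z → ℝ} {R : ℝ} (hp : ∀ w, R ≤ ‖w‖ → p w = 0)
    (hq : ∀ w, R ≤ ‖w‖ → q w = 0) (hpd : Continuous p) (hqd : Continuous q) :
    Continuous (cyl p q : ℂ × Z → ℂ × Z) := by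
  rw [continuous_iff_continuousAt]
  intro y
  by_cases h : y.1 = 0
  · have h1 : ∀ᶠ y' : ℂ × Z in 𝓝 y, id y' = cyl p q y' := by
      have h2 : ContinuousAt (fun y : ℂ × Z => ‖y.1‖) y := continuous_fst.norm.continuousAt
      have h3 : ‖y.1‖ < Real.exp (-(|R| + 1)) := by
        rw [h, norm_zero]
        exact Real.exp_pos _
      filter_upwards [h2.eventually (gt_mem_nhds h3)] with y' hy'
      exact (cyl_axis hp hq hy').symm
    exact continuousAt_id.congr h1
  · have h1 := continuousAt_cw h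
    have h2 : ContinuousAt (fun y : ℂ × Z => p (cw y)) y :=
      ContinuousAt.comp (g := p) hpd.continuousAt h1
    have h3 : ContinuousAt (fun y : ℂ × Z => 2 * Real.pi * q (cw y)) y :=
      continuousAt_const.mul (ContinuousAt.comp (g := q) hqd.continuousAt h1)
    refine ContinuousAt.prodMk ?_ continuousAt_snd
    refine continuousAt_fst.mul ?_
    refine ContinuousAt.cexp ?_
    refine ContinuousAt.add ?_ ?_
    · exact ContinuousAt.comp (g := fun x : ℝ => (x : ℂ)) Complex.continuous_ofReal.continuousAt h2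
    · exact (ContinuousAt.comp (g := fun x : ℝ => (x : ℂ))
        Complex.continuous_ofReal.continuousAt h3).mul continuousAt_const

end Pool.Agent.X219.TC
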