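import Pool.Agent.X219.TC.Model

/-!
The vertical map and the twists.
-/

set_option autoImplicit false
set_option linter.unusedSectionVars false

open Set Filter Topology Function
open scoped ContDiff Manifold

namespace Pool.Agent.X219.TC

variable {Z : Type} [NormedAddCommGroup Z] [NormedSpace ℝ Z]

namespace Data

variable (D : Data Z)

/-- the vertical displacement -/
noncomputable def v (w : ℝ × Z) : ℝ := ∑' n, D.ε n * D.ν n w

theorem summable_half : Summable fun n : ℕ => hf n := by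
  unfold hf
  exact summable_geometric_two

theorem term_le (n : ℕ) (w : ℝ × Z) : D.ε n * D.ν n w ≤ hf n / 100 := by
  have h1 := D.εp n
  have h2 := D.εl n
  obtain ⟨h3, h4⟩ := D.ν01 n w
  calc D.ε n * D.ν n w ≤ D.ε n * 1 := mul_le_mul_of_nonneg_left h4 h1.le
    _ ≤ _ := by linarith

theorem term_nonneg (n : ℕ) (w : ℝ × Z) : 0 ≤ D.ε n * D.ν n w :=
  mul_nonneg (D.εp n).le (D.ν01 n w).1

theorem summable_v (w : ℝ × Z) : Summable fun n => D.ε n * D.ν n w :=
  Summable.of_nonneg_of_le (D.term_nonneg · w) (D.term_le · w) (summable_half.div_const 100)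

theorem v_nonneg (w : ℝ × Z) : 0 ≤ D.v w := tsum_nonneg (D.term_nonneg · w)

theorem contDiff_v : ContDiff ℝ ∞ D.v := by
  have h := smooth_tsum (fun n w => D.ε n * D.ν n w) (fun _ => 1) (fun _ => by simp)
    (fun n => contDiff_const.mul (D.νd n)) (fun n k hk w => by
      refine (D.bν n k (by omega) w).trans ?_
      have : (0 : ℝ) < (1 / 2) ^ n := by positivity
      linarith)
  have e : D.v = fun w => ∑' n, (1 : ℝ) * (D.ε n * D.ν n w) := by
    funext w
    simp only [v, one_mul]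
  rw [e]
  exact h

theorem term_lip (n : ℕ) (x y : ℝ × Z) :
    |D.ε n * D.ν n x - D.ε n * D.ν n y| ≤ 1 / 100 * (1 / 2) ^ n * ‖x - y‖ := by
  have h1 : Differentiable ℝ fun w => D.ε n * D.ν n w :=
    ((contDiff_const.mul (D.νd n)).differentiable (by simp))
  have h2 := Convex.norm_image_sub_le_of_norm_fderiv_le (𝕜 := ℝ)
    (f := fun w => D.ε n * D.ν n w) (s := univ) (x := y) (y := x)
    (C := 1 / 100 * (1 / 2) ^ n) (fun z _ => h1 z)
    (fun z _ => by
      have := D.bν n 1 (by omega) z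
      rwa [norm_iteratedFDeriv_one] at this) convex_univ (mem_univ _) (mem_univ _)
  simpa using h2

theorem v_lip (x y : ℝ × Z) : |D.v x - D.v y| ≤ 1 / 50 * ‖x - y‖ := by
  have h1 : D.v x - D.v y = ∑' n, (D.ε n * D.ν n x - D.ε n * D.ν n y) :=
    ((D.summable_v x).tsum_sub (D.summable_v y)).symm
  rw [h1]
  have h2 : HasSum (fun n : ℕ => 1 / 100 * (1 / 2 : ℝ) ^ n * ‖x - y‖)
      (1 / 100 * 2 * ‖x - y‖) :=
    (hasSum_geometric_two.mul_left (1 / 100)).mul_right ‖x - y‖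
  have h3 := tsum_of_norm_bounded h2 (f := fun n => D.ε n * D.ν n x - D.ε n * D.ν n y)
    (fun n => D.term_lip n x y)
  rw [Real.norm_eq_abs] at h3
  linarith

theorem v_ne (w : ℝ × Z) : D.v w ≠ 0 ↔ ∃ n, w ∈ Shell Z n := by
  constructor
  · intro h
    by_contra hc
    push Not at hc
    apply h
    unfold v
    have : ∀ n, D.ε n * D.ν n w = 0 := fun n => by
      have h1 : D.ν n w = 0 := by
        by_contra h2
        exact hc n ((D.νs n w).1 h2)
      rw [h1, mul_zero]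
    simp only [this, tsum_zero]
  · rintro ⟨n, hn⟩
    have h1 : 0 < D.ε n * D.ν n w :=
      mul_pos (D.εp n) (lt_of_le_of_ne (D.ν01 n w).1 (Ne.symm ((D.νs n w).2 hn)))
    have h2 : D.ε n * D.ν n w ≤ D.v w :=
      (D.summable_v w).le_tsum n (fun m _ => D.term_nonneg m w)
    exact (lt_of_lt_of_le h1 h2).ne'

theorem tendsto_hf : Tendsto hf atTop (𝓝 0) := by
  unfold hf
  exact tendsto_pow_atTop_nhds_zero_of_lt_one (by norm_num) (by norm_num)

theorem exists_shell {w : ℝ × Z} (h0 : w ≠ 0) (h1 : ‖w‖ < 11 / 8) (h2 : ∀ n, w ≠ pt Z n) :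
    ∃ n, w ∈ Shell Z n := by
  have h3 : ∃ n, 11 / 8 * hf (n + 1) ≤ ‖w‖ := by
    have h4 : Tendsto (fun n => 11 / 8 * hf (n + 1)) atTop (𝓝 (11 / 8 * 0)) :=
      (tendsto_hf.comp (tendsto_add_atTop_nat 1)).const_mul _
    rw [mul_zero] at h4
    have h5 : 0 < ‖w‖ := norm_pos_iff.2 h0
    obtain ⟨n, hn⟩ := (h4.eventually (gt_mem_nhds h5)).exists
    exact ⟨n, hn.le⟩
  classical
  refine ⟨Nat.find h3, ?_, ?_, h2 _⟩
  · have h4 := Nat.find_spec h3
    rw [hf_succ] at h4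
    have := hf_pos (Nat.find h3)
    linarith
  · rcases Nat.eq_zero_or_pos (Nat.find h3) with h4 | h4
    · rw [h4]
      have : hf 0 = 1 := by simp [hf]
      rw [this]
      linarith
    · have h5 := Nat.find_min h3 (m := Nat.find h3 - 1) (by omega)
      rw [not_le, Nat.sub_add_cancel h4] at h5
      exact h5

theorem v_ne' (w : ℝ × Z) : D.v w ≠ 0 ↔ w ≠ 0 ∧ ‖w‖ < 11 / 8 ∧ ∀ n, w ≠ pt Z n := by
  rw [D.v_ne]
  constructor
  · rintro ⟨n, h1, h2, h3⟩
    have h4 := hf_pos n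
    have h5 := hf_le n
    refine ⟨?_, by linarith, fun m => ?_⟩
    · rintro rfl
      rw [norm_zero] at h1
      linarith
    · rintro rfl
      rw [norm_pt] at h1 h2
      rcases lt_trichotomy m n with h | h | h
      · have := hf_lt h
        linarith
      · exact h3 (by rw [h])
      · have := hf_lt h
        linarith
  · rintro ⟨h1, h2, h3⟩
    exact exists_shell h1 h2 h3

theorem v_zero : D.v 0 = 0 := by
  by_contra h
  exact ((D.v_ne' 0).1 h).1 rfl

theorem v_pt (n : ℕ) : D.v (pt Z n) = 0 := by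
  by_contra h
  exact ((D.v_ne' _).1 h).2.2 n rfl

theorem v_far {w : ℝ × Z} (h : 11 / 8 ≤ ‖w‖) : D.v w = 0 := by
  by_contra h1
  have := ((D.v_ne' _).1 h1).2.1
  linarith

theorem v_small (w : ℝ × Z) : D.v w ≤ 1 / 50 * ‖w‖ := by
  have := D.v_lip w 0
  rw [D.v_zero, sub_zero, sub_zero] at this
  exact (le_abs_self _).trans this

/-- near a resting point only one term counts -/
theorem v_near {n : ℕ} {w : ℝ × Z} (h : ‖w - pt Z n‖ ≤ hf n / 4) : D.v w = D.ε n * D.ν n w := by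
  unfold v
  apply tsum_eq_single
  intro m hm
  have h1 : D.ν m w = 0 := by
    by_contra h2
    obtain ⟨h3, h4, -⟩ := (D.νs m w).1 h2
    obtain ⟨h5, h6⟩ := near_norm Z h
    have h7 := hf_pos n
    have h8 := hf_pos m
    rcases lt_or_gt_of_ne hm with h | h
    · have := hf_lt h
      linarith
    · have := hf_lt h
      linarith
  rw [h1, mul_zero]

/-! ### the vertical map -/

/-- the vertical map as a function -/
noncomputable def sh (w : ℝ × Z) : ℝ × Z := (w.1 + D.v w, w.2)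

theorem norm_e (x : ℝ) : ‖((x, 0) : ℝ × Z)‖ = |x| := by
  rw [Prod.norm_mk, norm_zero, Real.norm_eq_abs]
  exact max_eq_left (abs_nonneg _)

theorem approx : ApproximatesLinearOn D.sh
    ((ContinuousLinearEquiv.refl ℝ (ℝ × Z) : (ℝ × Z) ≃L[ℝ] (ℝ × Z)) : (ℝ × Z) →L[ℝ] (ℝ × Z))
    univ (1 / 50) := by
  intro x _ y _
  have h1 : D.sh x - D.sh y -
      ((ContinuousLinearEquiv.refl ℝ (ℝ × Z) : (ℝ × Z) ≃L[ℝ] (ℝ × Z)) : (ℝ × Z) →L[ℝ] (ℝ × Z))
        (x - y) = (D.v x - D.v y, 0) := by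
    apply Prod.ext
    · simp [sh]
      ring
    · simp [sh]
  rw [h1, norm_e]
  have h2 := D.v_lip x y
  simpa using h2

theorem const_lt : Subsingleton (ℝ × Z) ∨ (1 / 50 : NNReal) <
    ‖(((ContinuousLinearEquiv.refl ℝ (ℝ × Z)) : (ℝ × Z) ≃L[ℝ] (ℝ × Z)).symm :
      (ℝ × Z) →L[ℝ] (ℝ × Z))‖₊⁻¹ := by
  right
  have h1 : ‖(((ContinuousLinearEquiv.refl ℝ (ℝ × Z)) : (ℝ × Z) ≃L[ℝ] (ℝ × Z)).symm :
      (ℝ × Z) →L[ℝ] (ℝ × Z))‖₊ = 1 := by
    have : (((ContinuousLinearEquiv.refl ℝ (ℝ × Z)) : (ℝ × Z) ≃L[ℝ] (ℝ × Z)).symm :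
      (ℝ × Z) →L[ℝ] (ℝ × Z)) = ContinuousLinearMap.id ℝ (ℝ × Z) := rfl
    rw [this, ← NNReal.coe_inj]
    simp
  rw [h1, inv_one, ← NNReal.coe_lt_coe]
  push_cast
  norm_num

variable [FiniteDimensional ℝ Z]

/-- the vertical map -/
noncomputable def G : (ℝ × Z) ≃ₜ (ℝ × Z) := D.approx.toHomeomorph D.sh const_lt

theorem G_apply (w : ℝ × Z) : D.G w = (w.1 + D.v w, w.2) := rfl

theorem G_symm (w : ℝ × Z) : (D.G.symm w).1 + D.v (D.G.symm w) = w.1 ∧ (D.G.symm w).2 = w.2 := by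
  have h := D.G.apply_symm_apply w
  rw [G_apply] at h
  have h1 := congrArg Prod.fst h
  have h2 := congrArg Prod.snd h
  exact ⟨h1, h2⟩

theorem contDiff_G : ContDiff ℝ ∞ D.G :=
  (contDiff_fst.add D.contDiff_v).prodMk contDiff_snd

theorem contDiff_G_symm : ContDiff ℝ ∞ D.G.symm := by
  have h1 : ∀ w, ∃ L : (ℝ × Z) ≃L[ℝ] (ℝ × Z), HasFDerivAt D.G (L : (ℝ × Z) →L[ℝ] (ℝ × Z)) w := by
    intro w
    have hd : DifferentiableAt ℝ D.G w := (D.contDiff_G.differentiable (by simp)) w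
    have hdv : DifferentiableAt ℝ D.v w := (D.contDiff_v.differentiable (by simp)) w
    have h2 : ∀ x, fderiv ℝ D.G w x = (x.1 + fderiv ℝ D.v w x, x.2) := by
      intro x
      have h3 : HasFDerivAt D.G ((ContinuousLinearMap.fst ℝ ℝ Z + fderiv ℝ D.v w).prod
          (ContinuousLinearMap.snd ℝ ℝ Z)) w :=
        (hasFDerivAt_fst.add hdv.hasFDerivAt).prodMk hasFDerivAt_snd
      rw [h3.fderiv]
      rfl
    have h4 : ‖fderiv ℝ D.v w‖ ≤ 1 / 50 := by
      apply norm_fderiv_le_of_lip' ℝ (by norm_num)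
      filter_upwards with y
      exact D.v_lip y w
    have h5 : Injective (fderiv ℝ D.G w) := by
      rw [injective_iff_map_eq_zero]
      intro x hx
      rw [h2] at hx
      have h6 : x.2 = 0 := congrArg Prod.snd hx
      have h7 : x.1 + fderiv ℝ D.v w x = 0 := congrArg Prod.fst hx
      have h8 : ‖x‖ = |x.1| := by
        have : x = (x.1, 0) := Prod.ext rfl h6
        rw [this, norm_e]
      have h9 : |x.1| = |fderiv ℝ D.v w x| := by
        rw [eq_neg_of_add_eq_zero_left h7, abs_neg]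
      have h10 := (fderiv ℝ D.v w).le_of_opNorm_le h4 x
      rw [Real.norm_eq_abs, ← h9, ← h8] at h10
      have h11 := norm_nonneg x
      have : ‖x‖ = 0 := by linarith
      exact norm_eq_zero.1 this
    let L0 := LinearEquiv.ofInjectiveEndo (fderiv ℝ D.G w : (ℝ × Z) →ₗ[ℝ] (ℝ × Z)) h5
    refine ⟨L0.toContinuousLinearEquiv, ?_⟩
    have h6 : ((L0.toContinuousLinearEquiv : (ℝ × Z) ≃L[ℝ] (ℝ × Z)) : (ℝ × Z) →L[ℝ] (ℝ × Z)) =
        fderiv ℝ D.G w := by
      ext x <;> rfl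
    rw [h6]
    exact hd.hasFDerivAt
  choose L hL using h1
  exact Homeomorph.contDiff_symm D.G hL D.contDiff_G

theorem v_symm (w : ℝ × Z) (h : 11 / 8 ≤ ‖w‖) : D.G.symm w = w := by
  rw [Homeomorph.symm_apply_eq, G_apply, D.v_far h, add_zero]

/-- the difference of the twist -/
noncomputable def Δ (n : ℕ) (w : ℝ × Z) : ℝ := D.β n (w + ((D.ε n : ℝ), (0 : Z))) - D.β n w

theorem β_zero {n : ℕ} {w : ℝ × Z} (h : hf n / 8 ≤ ‖w - pt Z n‖) : D.β n w = 0 := by
  by_contra h1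
  have := (D.βs n w).1 h1
  linarith

theorem β_G (n : ℕ) (w : ℝ × Z) : D.β n (D.G w) = D.β n (w + ((D.ε n : ℝ), (0 : Z))) := by
  have e1 : D.G w = w + ((D.v w : ℝ), (0 : Z)) := by
    rw [G_apply]
    exact Prod.ext rfl (by simp)
  have p0 := hf_pos n
  have p1 := D.εp n
  have p2 := D.εl n
  have p3 := D.v_nonneg w
  by_cases h1 : ‖w - pt Z n‖ ≤ hf n / 4
  · by_cases h2 : hf n / 32 ≤ ‖w - pt Z n‖
    · rw [e1, D.v_near h1, D.ν1 n w ⟨h1, h2⟩, mul_one]
    · rw [not_le] at h2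
      have h3 : D.v w ≤ D.ε n := by
        rw [D.v_near h1]
        calc D.ε n * D.ν n w ≤ D.ε n * 1 := mul_le_mul_of_nonneg_left (D.ν01 n w).2 p1.le
          _ = _ := mul_one _
      have h4 : ∀ x : ℝ, |x| ≤ D.ε n → D.β n (w + ((x : ℝ), (0 : Z))) = 1 := by
        intro x hx
        apply D.β1
        have : w + ((x : ℝ), (0 : Z)) - pt Z n = (w - pt Z n) + ((x : ℝ), (0 : Z)) := by abel
        rw [this]
        refine (norm_add_le _ _).trans ?_
        rw [norm_e]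
        linarith
      rw [e1, h4 _ (by rw [abs_of_nonneg p3]; exact h3), h4 _ (by rw [abs_of_pos p1])]
  · rw [not_le] at h1
    have h2 : D.β n (w + ((D.ε n : ℝ), (0 : Z))) = 0 := by
      apply D.β_zero
      have : w + ((D.ε n : ℝ), (0 : Z)) - pt Z n = (w - pt Z n) + ((D.ε n : ℝ), (0 : Z)) := by abel
      rw [this]
      have h3 := norm_sub_le ((w - pt Z n) + ((D.ε n : ℝ), (0 : Z))) ((D.ε n : ℝ), (0 : Z))
      rw [add_sub_cancel_right, norm_e, abs_of_pos p1] at h3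
      linarith
    rw [h2, e1]
    apply D.β_zero
    by_contra h3
    rw [not_le] at h3
    have h4 := (near_norm Z h3.le).2
    have h5 := norm_sub_le (w + ((D.v w : ℝ), (0 : Z))) ((D.v w : ℝ), (0 : Z))
    rw [add_sub_cancel_right, norm_e, abs_of_nonneg p3] at h5
    have h6 := D.v_small w
    have h7 : w - pt Z n = (w + ((D.v w : ℝ), (0 : Z)) - pt Z n) - ((D.v w : ℝ), (0 : Z)) := by abel
    have h8 : ‖w - pt Z n‖ ≤ ‖w + ((D.v w : ℝ), (0 : Z)) - pt Z n‖ + D.v w := by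
      rw [h7]
      refine (norm_sub_le _ _).trans ?_
      rw [norm_e, abs_of_nonneg p3]
    linarith

theorem Δ_eq (n : ℕ) (w : ℝ × Z) : D.Δ n w = D.β n (D.G w) - D.β n w := by
  rw [β_G, Δ]

end Data

end Pool.Agent.X219.TC
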